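import Pool.Agent.Q280.Pat.Viol

set_option autoImplicit false

/-!
# Uniform bounds
-/

open Finset

namespace Q280.Pat

lemma simple_reduce (K V b' D X m : ℕ) (hK : 1 ≤ K)
    (h3 : X / 2 ^ b' = m) (h3' : (X + D) / 2 ^ b' = m + 1) (hm : 1 ≤ m) :
    F K V (X + D) + F K V X + F K V (X + D + 2 ^ (b' + K - 1) * D) +
      F K V (X + 2 ^ (b' + K - 1) * D) =
    F K V (m + 1) + F K V m + F K V (m + 1 + 2 ^ (K - 1) * D) + F K V (m + 2 ^ (K - 1) * D) := by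
  set b := b' + K - 1 with hb
  have hbb : 2 ^ b = 2 ^ b' * 2 ^ (K - 1) := by rw [← pow_add]; congr 1; omega
  have hXb : 2 ^ b' ≤ X := by
    have : 1 ≤ X / 2 ^ b' := by rw [h3]; exact hm
    exact (Nat.one_le_div_iff (by positivity)).1 this
  have nz : ∀ (Z p : ℕ), X ≤ Z → p < b' → Z / 2 ^ p ≠ 0 := by
    intro Z p hZ hp hc
    rw [Nat.div_eq_zero_iff] at hc
    rcases hc with hc | hc
    · exact absurd hc (by positivity)
    · have e1 : 2 ^ p ≤ 2 ^ b' := Nat.pow_le_pow_right (by norm_num) hp.le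
      omega
  rw [F_split K V (X + D) b', F_split K V X b', F_split K V (X + D + 2 ^ b * D) b',
    F_split K V (X + 2 ^ b * D) b', h3, h3']
  have f1 : (X + D + 2 ^ b * D) / 2 ^ b' = m + 1 + 2 ^ (K - 1) * D := by
    rw [hbb, mul_assoc, Nat.add_mul_div_left _ _ (by positivity), h3']
  have f2 : (X + 2 ^ b * D) / 2 ^ b' = m + 2 ^ (K - 1) * D := by
    rw [hbb, mul_assoc, Nat.add_mul_div_left _ _ (by positivity), h3]
  rw [f1, f2]
  have g1 : ∑ p ∈ range b', chi K V ((X + D + 2 ^ b * D) / 2 ^ p) =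
      ∑ p ∈ range b', chi K V ((X + D) / 2 ^ p) := by
    apply sum_congr rfl
    intro p hp
    rw [mem_range] at hp
    apply chi_congr K V _ _ (nz _ _ (by omega) hp) (nz _ _ (by omega) hp)
    have : X + D + 2 ^ b * D = 2 ^ b * D + (X + D) := by ring
    rw [this, div_low _ _ b p (by omega), add_comm (2 ^ (b - p) * _),
      add_mul_mod_pow _ _ _ _ (by omega)]
  have g2 : ∑ p ∈ range b', chi K V ((X + 2 ^ b * D) / 2 ^ p) =
      ∑ p ∈ range b', chi K V (X / 2 ^ p) := by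
    apply sum_congr rfl
    intro p hp
    rw [mem_range] at hp
    apply chi_congr K V _ _ (nz _ _ (by omega) hp) (nz _ _ (by omega) hp)
    have : X + 2 ^ b * D = 2 ^ b * D + X := by ring
    rw [this, div_low _ _ b p (by omega), add_comm (2 ^ (b - p) * _),
      add_mul_mod_pow _ _ _ _ (by omega)]
  rw [g1, g2]
  generalize (∑ p ∈ range b', chi K V ((X + D) / 2 ^ p)) = S1
  generalize (∑ p ∈ range b', chi K V (X / 2 ^ p)) = S2
  linear_combination two_eq S1 + two_eq S2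

/-- the first passage through a level -/
lemma passage (N D b' μ : ℕ) (hD : 1 ≤ D) (hDb : D ≤ 2 ^ b') (hμ : N / 2 ^ b' < μ) :
    ∃ l, 1 ≤ l ∧ l ≤ (μ - N / 2 ^ b') * 2 ^ b' ∧ (N + l * D) / 2 ^ b' = μ ∧
      (N + (l - 1) * D) / 2 ^ b' = μ - 1 := by
  have hex : ∃ l, μ ≤ (N + l * D) / 2 ^ b' := by
    refine ⟨μ * 2 ^ b', ?_⟩
    rw [Nat.le_div_iff_mul_le (by positivity)]
    have : μ * 2 ^ b' * 1 ≤ μ * 2 ^ b' * D := Nat.mul_le_mul_left _ hD
    omega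
  classical
  set l := Nat.find hex with hl
  have h1 : μ ≤ (N + l * D) / 2 ^ b' := Nat.find_spec hex
  have hl1 : 1 ≤ l := by
    by_contra hc
    have : l = 0 := by omega
    rw [this, zero_mul, add_zero] at h1
    omega
  have h2 : (N + (l - 1) * D) / 2 ^ b' < μ := by
    have := Nat.find_min hex (m := l - 1) (by omega)
    omega
  have h3 : N + l * D = N + (l - 1) * D + D := by
    obtain ⟨l', hl'⟩ : ∃ l', l = l' + 1 := ⟨l - 1, by omega⟩
    rw [hl']; simp only [Nat.add_sub_cancel]; ring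
  have h4 : (N + l * D) / 2 ^ b' ≤ (N + (l - 1) * D) / 2 ^ b' + 1 := by
    rw [h3, ← Nat.add_div_right _ (by positivity)]
    exact Nat.div_le_div_right (by omega)
  have h9 : (N + l * D) / 2 ^ b' = μ ∧ (N + (l - 1) * D) / 2 ^ b' = μ - 1 := by
    generalize (N + l * D) / 2 ^ b' = Q1 at h1 h4 ⊢
    generalize (N + (l - 1) * D) / 2 ^ b' = Q2 at h2 h4 ⊢
    omega
  refine ⟨l, hl1, ?_, h9.1, h9.2⟩
  have h5 : N + (l - 1) * D < μ * 2 ^ b' := (Nat.div_lt_iff_lt_mul (by positivity)).1 h2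
  have h6 : N / 2 ^ b' * 2 ^ b' ≤ N := Nat.div_mul_le_self _ _
  have h7 : (μ - N / 2 ^ b') * 2 ^ b' = μ * 2 ^ b' - N / 2 ^ b' * 2 ^ b' := Nat.sub_mul _ _ _
  have h8 : l - 1 ≤ (l - 1) * D := Nat.le_mul_of_pos_right _ hD
  omega

lemma four_one (a b c d : ZMod 2) (x : ZMod 2) (h : a + b + c + d = 1) :
    a ≠ x ∨ b ≠ x ∨ c ≠ x ∨ d ≠ x := by
  revert a b c d x
  decide

/-- a residue in a window -/
lemma exists_target (Q T m0 : ℕ) (hm0 : m0 < T) :
    ∃ μ, Q + 1 + T ≤ μ ∧ μ < Q + 1 + 2 * T ∧ μ % T = m0 := by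
  refine ⟨Q + 1 + T + (m0 + (T - (Q + 1) % T)) % T, by omega, ?_, ?_⟩
  · have := Nat.mod_lt (m0 + (T - (Q + 1) % T)) (show 0 < T by omega)
    omega
  · have h1 : (Q + 1) % T < T := Nat.mod_lt _ (by omega)
    have h2 := Nat.div_add_mod (Q + 1) T
    rw [Nat.add_mod, Nat.mod_mod, ← Nat.add_mod]
    have : Q + 1 + T + (m0 + (T - (Q + 1) % T)) = m0 + T * ((Q + 1) / T + 2) := by
      have : T * ((Q + 1) / T + 2) = T * ((Q + 1) / T) + T + T := by ring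
      omega
    rw [this, Nat.add_mul_mod_self_left, Nat.mod_eq_of_lt hm0]

/-- the lengths are finite, uniformly in the start -/
lemma finite_bound (K V d : ℕ) (hK : 1 ≤ K) (hV : V < 2 ^ K) (hd : 1 ≤ d) :
    ∃ C, ∀ n, ∃ l, 1 ≤ l ∧ l ≤ C ∧ F K V (n + l * d) ≠ F K V n := by
  obtain ⟨a, c', hc', rfl⟩ : ∃ a c', c' % 2 = 1 ∧ d = 2 ^ a * c' := by
    obtain ⟨a, c', h1, h2⟩ := Nat.exists_eq_two_pow_mul_odd (show d ≠ 0 by omega)
    exact ⟨a, c', Nat.odd_iff.1 h1, h2⟩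
  set d := 2 ^ a * c' with hdd
  obtain ⟨t, m0, ht, hm0, -, -, hviol⟩ := violation K V a hK hV
  obtain ⟨b', hb'⟩ : ∃ b', d ≤ 2 ^ b' := ⟨d, Nat.lt_two_pow_self.le⟩
  refine ⟨(2 * 2 ^ t + 1) * 2 ^ b' + 2 ^ (b' + K - 1), ?_⟩
  intro n
  obtain ⟨μ, h1, h2, h3⟩ := exists_target (n / 2 ^ b') (2 ^ t) m0 hm0
  have hT0 : 1 ≤ 2 ^ t := Nat.one_le_two_pow
  have hQ : n / 2 ^ b' < μ ∧ μ - n / 2 ^ b' ≤ 2 * 2 ^ t + 1 := by
    generalize n / 2 ^ b' = Q at h1 h2 ⊢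
    omega
  have hμ : 1 + 2 ^ t ≤ μ := by
    generalize n / 2 ^ b' = Q at h1 h2 ⊢
    omega
  obtain ⟨l, hl1, hl2, hl3, hl4⟩ := passage n d b' μ hd hb' hQ.1
  clear h1 h2
  have hT : 1 ≤ 2 ^ t := Nat.one_le_two_pow
  have e1 : n + l * d = n + (l - 1) * d + d := by
    obtain ⟨l', hl'⟩ : ∃ l', l = l' + 1 := ⟨l - 1, by omega⟩
    rw [hl']; simp only [Nat.add_sub_cancel]; ring
  have key := simple_reduce K V b' d (n + (l - 1) * d) (μ - 1) hK hl4
    (by rw [← e1, hl3]; omega) (by omega)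
  rw [← e1] at key
  have e2 : 2 ^ (K - 1) * d = 2 ^ (K - 1 + a) * c' := by rw [hdd, pow_add]; ring
  rw [e2] at key
  rw [hviol c' hc' (μ - 1) (by omega) (by
    have : μ - 1 + 1 = μ := by omega
    rw [this]; exact h3)] at key
  have hLb : l ≤ (2 * 2 ^ t + 1) * 2 ^ b' := by
    exact hl2.trans (Nat.mul_le_mul_right _ hQ.2)
  have hpos : 1 ≤ 2 ^ (b' + K - 1) := Nat.one_le_two_pow
  rcases four_one _ _ _ _ (F K V n) key with h | h | h | h
  · exact ⟨l, hl1, by omega, h⟩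
  · refine ⟨l - 1, ?_, by omega, h⟩
    by_contra hc
    have : l - 1 = 0 := by omega
    rw [this] at h
    simp at h
  · refine ⟨l + 2 ^ (b' + K - 1), by omega, by omega, ?_⟩
    have : n + (l + 2 ^ (b' + K - 1)) * d = n + l * d + 2 ^ (b' + K - 1) * d := by ring
    rw [this]; exact h
  · refine ⟨l - 1 + 2 ^ (b' + K - 1), by omega, by omega, ?_⟩
    have : n + (l - 1 + 2 ^ (b' + K - 1)) * d = n + (l - 1) * d + 2 ^ (b' + K - 1) * d := by ring
    rw [this]; exact h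

end Q280.Pat
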