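import Pool.Agent.Q280.Pat.Def

set_option autoImplicit false

/-!
# Parities of pattern counts
-/

open Finset

namespace Q280.Pat

/-- one window -/
def chi (K V z : ℕ) : ZMod 2 := if z ≠ 0 ∧ z % 2 ^ K = V then 1 else 0

/-- the parity of the count -/
def F (K V n : ℕ) : ZMod 2 := (E K V n : ZMod 2)

lemma F_zero (K V : ℕ) : F K V 0 = 0 := by
  unfold F; rw [E_zero]; rfl

lemma F_step (K V n : ℕ) : F K V n = chi K V n + F K V (n / 2) := by
  by_cases hn : n = 0
  · subst hn; simp [F_zero, chi]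
  · unfold F chi
    rw [E_pos K V n hn]
    by_cases h : n % 2 ^ K = V
    · rw [if_pos h, if_pos ⟨hn, h⟩]; push_cast; ring
    · rw [if_neg h, if_neg (fun hc => h hc.2)]; push_cast; ring

lemma F_split (K V n P : ℕ) :
    F K V n = ∑ p ∈ range P, chi K V (n / 2 ^ p) + F K V (n / 2 ^ P) := by
  induction P with
  | zero => simp
  | succ P ih =>
    rw [sum_range_succ, ih, F_step K V (n / 2 ^ P), Nat.div_div_eq_div_mul, ← pow_succ]
    ring

lemma two_eq (x : ZMod 2) : x + x = 0 := CharTwo.add_self_eq_zero x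

lemma chi_congr (K V z z' : ℕ) (h : z ≠ 0) (h' : z' ≠ 0) (hm : z % 2 ^ K = z' % 2 ^ K) :
    chi K V z = chi K V z' := by
  unfold chi
  simp only [h, h', hm, ne_eq, not_false_eq_true, true_and]

lemma div_low (X y e p : ℕ) (hp : p ≤ e) :
    (2 ^ e * X + y) / 2 ^ p = 2 ^ (e - p) * X + y / 2 ^ p := by
  have : 2 ^ e * X + y = y + 2 ^ p * (2 ^ (e - p) * X) := by
    rw [← mul_assoc, ← pow_add]
    have : p + (e - p) = e := by omega
    rw [this]; ring
  rw [this, Nat.add_mul_div_left _ _ (by positivity)]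
  ring

lemma div_high (X y e p : ℕ) (hp : e ≤ p) (hy : y < 2 ^ e) :
    (2 ^ e * X + y) / 2 ^ p = X / 2 ^ (p - e) := by
  have : 2 ^ p = 2 ^ e * 2 ^ (p - e) := by
    rw [← pow_add]; congr 1; omega
  rw [this, ← Nat.div_div_eq_div_mul]
  congr 1
  rw [div_low X y e e le_rfl]
  simp [Nat.div_eq_of_lt hy]

lemma add_mul_mod_pow (x c K j : ℕ) (hj : K ≤ j) : (x + 2 ^ j * c) % 2 ^ K = x % 2 ^ K := by
  have : 2 ^ j * c = 2 ^ K * (2 ^ (j - K) * c) := by
    rw [← mul_assoc, ← pow_add]; congr 2; omega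
  rw [this, Nat.add_mul_mod_self_left]

lemma mul_add_mod_pow (x c K j : ℕ) (hj : K ≤ j) : (2 ^ j * c + x) % 2 ^ K = x % 2 ^ K := by
  rw [add_comm, add_mul_mod_pow x c K j hj]

/-- the sum over four points, when one of the two parts does not jump -/
lemma four_reduce (K V b' e D r X y m : ℕ) (hK : 1 ≤ K) (he : b' + K ≤ e)
    (h1 : (y + r + 2 ^ (b' + K - 1) * r) / 2 ^ (e - K + 1) = y / 2 ^ (e - K + 1))
    (h2 : (y + r) / 2 ^ b' = y / 2 ^ b') (h3 : X / 2 ^ b' = m) (h3' : (X + D) / 2 ^ b' = m + 1)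
    (h4 : y < 2 ^ e) (hm : 1 ≤ m) :
    F K V (2 ^ e * (X + D) + (y + r)) + F K V (2 ^ e * X + y) +
      F K V (2 ^ e * (X + D + 2 ^ (b' + K - 1) * D) + (y + r + 2 ^ (b' + K - 1) * r)) +
      F K V (2 ^ e * (X + 2 ^ (b' + K - 1) * D) + (y + 2 ^ (b' + K - 1) * r)) =
    F K V (m + 1) + F K V m + F K V (m + 1 + 2 ^ (K - 1) * D) + F K V (m + 2 ^ (K - 1) * D) := by
  set b := b' + K - 1 with hb
  have hbb : 2 ^ b = 2 ^ b' * 2 ^ (K - 1) := by rw [← pow_add]; congr 1; omega
  -- all y's are small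
  have hM : 2 ^ e = 2 ^ (e - K + 1) * 2 ^ (K - 1) := by rw [← pow_add]; congr 1; omega
  have hy4 : y + r + 2 ^ b * r < 2 ^ e := by
    have e1 : y / 2 ^ (e - K + 1) < 2 ^ (K - 1) := by
      rw [Nat.div_lt_iff_lt_mul (by positivity), mul_comm, ← hM]; exact h4
    rw [← h1, Nat.div_lt_iff_lt_mul (by positivity)] at e1
    rw [hM, mul_comm (2 ^ (e - K + 1))]
    exact e1
  have hy3 : y + 2 ^ b * r < 2 ^ e := by omega
  have hy2 : y + r < 2 ^ e := by omega
  have mono : ∀ q, e - K + 1 ≤ q → (y + r) / 2 ^ q = (y + r + 2 ^ b * r) / 2 ^ q ∧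
      y / 2 ^ q = (y + 2 ^ b * r) / 2 ^ q := by
    intro q hq
    have hq' : 2 ^ q = 2 ^ (e - K + 1) * 2 ^ (q - (e - K + 1)) := by
      rw [← pow_add]; congr 1; omega
    have e1 : (y + r) / 2 ^ (e - K + 1) = y / 2 ^ (e - K + 1) := by
      apply le_antisymm
      · rw [← h1]; exact Nat.div_le_div_right (by omega)
      · exact Nat.div_le_div_right (by omega)
    have e2 : (y + 2 ^ b * r) / 2 ^ (e - K + 1) = y / 2 ^ (e - K + 1) := by
      apply le_antisymm
      · rw [← h1]; exact Nat.div_le_div_right (by omega)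
      · exact Nat.div_le_div_right (by omega)
    rw [hq', ← Nat.div_div_eq_div_mul, ← Nat.div_div_eq_div_mul, ← Nat.div_div_eq_div_mul,
      ← Nat.div_div_eq_div_mul, e1, e2, h1]
    exact ⟨rfl, rfl⟩
  have mid : ∀ q, b' ≤ q → (y + r) / 2 ^ q = y / 2 ^ q ∧
      (y + r + 2 ^ b * r) / 2 ^ q = (y + 2 ^ b * r) / 2 ^ q := by
    intro q hq
    have hq' : 2 ^ q = 2 ^ b' * 2 ^ (q - b') := by
      rw [← pow_add]; congr 1; omega
    have e1 : (y + r + 2 ^ b * r) / 2 ^ b' = (y + 2 ^ b * r) / 2 ^ b' := by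
      rw [hbb, mul_assoc, Nat.add_mul_div_left _ _ (by positivity),
        Nat.add_mul_div_left _ _ (by positivity), h2]
    rw [hq', ← Nat.div_div_eq_div_mul, ← Nat.div_div_eq_div_mul, ← Nat.div_div_eq_div_mul,
      ← Nat.div_div_eq_div_mul, e1, h2]
    exact ⟨rfl, rfl⟩
  have hXb : 2 ^ b' ≤ X := by
    have : 1 ≤ X / 2 ^ b' := by rw [h3]; exact hm
    exact (Nat.one_le_div_iff (by positivity)).1 this
  -- nonvanishing
  have nz : ∀ (Z z p : ℕ), X ≤ Z → p < e + b' → (2 ^ e * Z + z) / 2 ^ p ≠ 0 := by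
    intro Z z p hZ hp hc
    rw [Nat.div_eq_zero_iff] at hc
    rcases hc with hc | hc
    · exact absurd hc (by positivity)
    · have e1 : 2 ^ p ≤ 2 ^ e * 2 ^ b' := by
        rw [← pow_add]; exact Nat.pow_le_pow_right (by norm_num) hp.le
      have e2 : 2 ^ e * 2 ^ b' ≤ 2 ^ e * Z := Nat.mul_le_mul_left _ (hXb.trans hZ)
      omega
  rw [F_split K V (2 ^ e * (X + D) + (y + r)) (e + b'), F_split K V (2 ^ e * X + y) (e + b'),
    F_split K V (2 ^ e * (X + D + 2 ^ b * D) + (y + r + 2 ^ b * r)) (e + b'),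
    F_split K V (2 ^ e * (X + 2 ^ b * D) + (y + 2 ^ b * r)) (e + b')]
  rw [div_high _ _ e _ (by omega) hy2, div_high _ _ e _ (by omega) h4,
    div_high _ _ e _ (by omega) hy4, div_high _ _ e _ (by omega) hy3]
  have eb : e + b' - e = b' := by omega
  rw [eb, h3, h3']
  have f1 : (X + D + 2 ^ b * D) / 2 ^ b' = m + 1 + 2 ^ (K - 1) * D := by
    rw [hbb, mul_assoc, Nat.add_mul_div_left _ _ (by positivity), h3']
  have f2 : (X + 2 ^ b * D) / 2 ^ b' = m + 2 ^ (K - 1) * D := by
    rw [hbb, mul_assoc, Nat.add_mul_div_left _ _ (by positivity), h3]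
  rw [f1, f2]
  have key : ∑ p ∈ range (e + b'), chi K V ((2 ^ e * (X + D) + (y + r)) / 2 ^ p) +
      ∑ p ∈ range (e + b'), chi K V ((2 ^ e * X + y) / 2 ^ p) +
      ∑ p ∈ range (e + b'), chi K V
        ((2 ^ e * (X + D + 2 ^ b * D) + (y + r + 2 ^ b * r)) / 2 ^ p) +
      ∑ p ∈ range (e + b'), chi K V ((2 ^ e * (X + 2 ^ b * D) + (y + 2 ^ b * r)) / 2 ^ p) = 0 := by
    rw [← sum_add_distrib, ← sum_add_distrib, ← sum_add_distrib]
    apply sum_eq_zero
    intro p hp
    rw [mem_range] at hp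
    have n1 := nz (X + D) (y + r) p (by omega) hp
    have n2 := nz X y p le_rfl hp
    have n3 := nz (X + D + 2 ^ b * D) (y + r + 2 ^ b * r) p (by omega) hp
    have n4 := nz (X + 2 ^ b * D) (y + 2 ^ b * r) p (by omega) hp
    by_cases c1 : b' ≤ p ∧ p + K ≤ e
    · obtain ⟨c1, c2⟩ := c1
      have g1 : chi K V ((2 ^ e * (X + D) + (y + r)) / 2 ^ p) =
          chi K V ((2 ^ e * X + y) / 2 ^ p) := by
        apply chi_congr K V _ _ n1 n2
        rw [div_low _ _ _ _ (by omega), div_low _ _ _ _ (by omega), (mid p c1).1,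
          mul_add_mod_pow _ _ _ _ (by omega), mul_add_mod_pow _ _ _ _ (by omega)]
      have g2 : chi K V ((2 ^ e * (X + D + 2 ^ b * D) + (y + r + 2 ^ b * r)) / 2 ^ p) =
          chi K V ((2 ^ e * (X + 2 ^ b * D) + (y + 2 ^ b * r)) / 2 ^ p) := by
        apply chi_congr K V _ _ n3 n4
        rw [div_low _ _ _ _ (by omega), div_low _ _ _ _ (by omega), (mid p c1).2,
          mul_add_mod_pow _ _ _ _ (by omega), mul_add_mod_pow _ _ _ _ (by omega)]
      rw [g1, g2, two_eq, zero_add, two_eq]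
    · have g : chi K V ((2 ^ e * (X + D) + (y + r)) / 2 ^ p) =
          chi K V ((2 ^ e * (X + D + 2 ^ b * D) + (y + r + 2 ^ b * r)) / 2 ^ p) ∧
          chi K V ((2 ^ e * X + y) / 2 ^ p) =
          chi K V ((2 ^ e * (X + 2 ^ b * D) + (y + 2 ^ b * r)) / 2 ^ p) := by
        rcases Nat.lt_or_ge p b' with c2 | c2
        · -- low windows
          constructor
          · apply chi_congr K V _ _ n1 n3
            have : 2 ^ e * (X + D + 2 ^ b * D) + (y + r + 2 ^ b * r) =
                2 ^ b * (2 ^ e * D + r) + (2 ^ e * (X + D) + (y + r)) := by ring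
            rw [this, div_low _ _ b p (by omega), add_comm (2 ^ (b - p) * _),
              add_mul_mod_pow _ _ _ _ (by omega)]
          · apply chi_congr K V _ _ n2 n4
            have : 2 ^ e * (X + 2 ^ b * D) + (y + 2 ^ b * r) =
                2 ^ b * (2 ^ e * D + r) + (2 ^ e * X + y) := by ring
            rw [this, div_low _ _ b p (by omega), add_comm (2 ^ (b - p) * _),
              add_mul_mod_pow _ _ _ _ (by omega)]
        · rcases Nat.lt_or_ge p e with c3 | c3
          · -- crossing windows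
            have hm' := mono p (by omega)
            constructor
            · apply chi_congr K V _ _ n1 n3
              rw [div_low _ _ _ _ c3.le, div_low _ _ _ _ c3.le, hm'.1]
              have : 2 ^ (e - p) * (X + D + 2 ^ b * D) + (y + r + 2 ^ b * r) / 2 ^ p =
                  (2 ^ (e - p) * (X + D) + (y + r + 2 ^ b * r) / 2 ^ p) +
                  2 ^ (e - p + b) * D := by
                rw [pow_add]; ring
              rw [this, add_mul_mod_pow _ _ _ _ (by omega)]
            · apply chi_congr K V _ _ n2 n4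
              rw [div_low _ _ _ _ c3.le, div_low _ _ _ _ c3.le, hm'.2]
              have : 2 ^ (e - p) * (X + 2 ^ b * D) + (y + 2 ^ b * r) / 2 ^ p =
                  (2 ^ (e - p) * X + (y + 2 ^ b * r) / 2 ^ p) +
                  2 ^ (e - p + b) * D := by
                rw [pow_add]; ring
              rw [this, add_mul_mod_pow _ _ _ _ (by omega)]
          · -- high windows
            constructor
            · apply chi_congr K V _ _ n1 n3
              rw [div_high _ _ _ _ c3 hy2, div_high _ _ _ _ c3 hy4]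
              have : X + D + 2 ^ b * D = 2 ^ b * D + (X + D) := by ring
              rw [this, div_low _ _ b _ (by omega), add_comm (2 ^ (b - (p - e)) * _),
                add_mul_mod_pow _ _ _ _ (by omega)]
            · apply chi_congr K V _ _ n2 n4
              rw [div_high _ _ _ _ c3 h4, div_high _ _ _ _ c3 hy3]
              have : X + 2 ^ b * D = 2 ^ b * D + X := by ring
              rw [this, div_low _ _ b _ (by omega), add_comm (2 ^ (b - (p - e)) * _),
                add_mul_mod_pow _ _ _ _ (by omega)]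
      rw [g.1, g.2]
      have : ∀ x y : ZMod 2, x + y + x + y = 0 := by decide
      exact this _ _
  generalize (∑ p ∈ range (e + b'), chi K V ((2 ^ e * (X + D) + (y + r)) / 2 ^ p)) = S1 at key ⊢
  generalize (∑ p ∈ range (e + b'), chi K V ((2 ^ e * X + y) / 2 ^ p)) = S2 at key ⊢
  generalize (∑ p ∈ range (e + b'), chi K V
        ((2 ^ e * (X + D + 2 ^ b * D) + (y + r + 2 ^ b * r)) / 2 ^ p)) = S3 at key ⊢
  generalize (∑ p ∈ range (e + b'), chi K V
        ((2 ^ e * (X + 2 ^ b * D) + (y + 2 ^ b * r)) / 2 ^ p)) = S4 at key ⊢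
  linear_combination key

end Q280.Pat
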