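import Mathlib

set_option autoImplicit false

/-!
# Counting occurrences of a binary pattern
-/

namespace Q280.Pat

/-- the binary expansion, most significant digit first; `0` has the empty expansion -/
def bin (n : ℕ) : List Bool := (Nat.bits n).reverse

/-- the number of occurrences (overlaps allowed) of `v` as a block of consecutive letters of `w` -/
def occ (v w : List Bool) : ℕ := w.tails.countP (fun t => v.isPrefixOf t)

/-- the number of leading zeros of a word -/
def lead (v : List Bool) : ℕ := (v.takeWhile (fun b => !b)).length

/-- the number of occurrences of the pattern `v` in the binary expansion of `n`; if `v` contains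
the digit `1`, the expansion is padded with as many zeros as `v` has leading zeros -/
def ev (v : List Bool) (n : ℕ) : ℕ :=
  if true ∈ v then occ v (List.replicate (lead v) false ++ bin n) else occ v (bin n)

/-- the number of terms of the longest monochromatic progression with difference `d` starting
at `n` -/
noncomputable def A (v : List Bool) (n d : ℕ) : ℕ :=
  sInf {l : ℕ | 1 ≤ l ∧ ev v (n + l * d) % 2 ≠ ev v n % 2}

/-- the maximal length of a monochromatic progression with difference `d` -/
noncomputable def Amax (v : List Bool) (d : ℕ) : ℕ := sSup (Set.range (fun n => A v n d))

/-- the value of a word read in base two -/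
def val (w : List Bool) : ℕ := w.foldl (fun a b => 2 * a + b.toNat) 0

/-- the recursive form -/
def E (K V : ℕ) (n : ℕ) : ℕ :=
  if h : n = 0 then 0 else E K V (n / 2) + (if n % 2 ^ K = V then 1 else 0)
termination_by n
decreasing_by omega

lemma E_zero (K V : ℕ) : E K V 0 = 0 := by
  rw [E]; simp

lemma E_pos (K V n : ℕ) (hn : n ≠ 0) :
    E K V n = E K V (n / 2) + (if n % 2 ^ K = V then 1 else 0) := by
  rw [E]; simp [hn]

lemma bin_zero : bin 0 = [] := by
  simp [bin]

lemma bin_step (n : ℕ) (hn : n ≠ 0) : bin n = bin (n / 2) ++ [n.bodd] := by
  unfold bin
  rw [← List.reverse_cons]
  congr 1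
  have h1 : n = Nat.bit n.bodd (n / 2) := by
    rw [← Nat.div2_val, Nat.bit_bodd_div2]
  conv_lhs => rw [h1]
  rw [Nat.bits_append_bit]
  intro h2
  have : n ≠ 0 := hn
  by_contra hb
  have hb' : n.bodd = false := by simpa using hb
  apply hn
  rw [h1, h2, hb']
  rfl

lemma val_append (x : List Bool) (b : Bool) : val (x ++ [b]) = 2 * val x + b.toNat := by
  unfold val
  rw [List.foldl_append]
  rfl

lemma val_nil : val [] = 0 := rfl

lemma val_append' (x y : List Bool) : val (x ++ y) = val x * 2 ^ y.length + val y := by
  induction y using List.reverseRecOn with
  | nil => simp [val_nil]
  | append_singleton y b ih =>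
    rw [← List.append_assoc, val_append, val_append, ih, List.length_append]
    simp only [List.length_singleton]
    rw [pow_succ]
    ring

lemma val_lt (x : List Bool) : val x < 2 ^ x.length := by
  induction x using List.reverseRecOn with
  | nil => simp [val_nil]
  | append_singleton y b ih =>
    rw [val_append, List.length_append, List.length_singleton, pow_succ]
    have : b.toNat ≤ 1 := Bool.toNat_le b
    omega

lemma val_bin (n : ℕ) : val (bin n) = n := by
  induction n using Nat.strong_induction_on with
  | _ n ih =>
    by_cases hn : n = 0
    · subst hn; rw [bin_zero, val_nil]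
    · rw [bin_step n hn, val_append, ih (n / 2) (by omega)]
      have h1 := Nat.mod_two_of_bodd n
      have h2 : n.bodd.toNat = n % 2 := h1.symm
      omega

lemma val_replicate (i : ℕ) : val (List.replicate i false) = 0 := by
  induction i with
  | zero => rfl
  | succ i ih => rw [List.replicate_succ', val_append, ih]; rfl

lemma val_inj : ∀ (x y : List Bool), x.length = y.length → val x = val y → x = y := by
  intro x
  induction x using List.reverseRecOn with
  | nil =>
    intro y hl _
    exact (List.length_eq_zero_iff.1 hl.symm).symm
  | append_singleton x b ih =>
    intro y hl hv
    rcases List.eq_nil_or_concat' y with rfl | ⟨y', c, rfl⟩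
    · simp at hl
    · rw [val_append, val_append] at hv
      have hb : b.toNat ≤ 1 := Bool.toNat_le b
      have hc : c.toNat ≤ 1 := Bool.toNat_le c
      have h1 : val x = val y' := by omega
      have h2 : b.toNat = c.toNat := by omega
      have h3 : b = c := by cases b <;> cases c <;> simp_all
      rw [ih y' (by simpa using hl) h1, h3]

lemma occ_nil (v : List Bool) (hv : v ≠ []) : occ v [] = 0 := by
  unfold occ
  cases v with
  | nil => exact absurd rfl hv
  | cons a v => simp [List.isPrefixOf]

lemma occ_cons (v w : List Bool) (a : Bool) :
    occ v (a :: w) = occ v w + (if v <+: (a :: w) then 1 else 0) := by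
  unfold occ
  rw [List.tails_cons, List.countP_cons]
  congr 1
  simp only [List.isPrefixOf_iff_prefix]

/-- appending one letter -/
lemma occ_append (v w : List Bool) (b : Bool) (hv : v ≠ []) :
    occ v (w ++ [b]) = occ v w + (if v <:+ (w ++ [b]) then 1 else 0) := by
  induction w with
  | nil =>
    simp only [List.nil_append]
    rw [occ_cons, occ_nil v hv]
    congr 1
    have : (v <+: [b]) ↔ (v <:+ [b]) := by
      constructor
      · intro h
        have hl := h.length_le
        have h1 : v.length = 1 := by
          have : 0 < v.length := List.length_pos_iff.2 hv
          simp at hl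
          omega
        have := h.eq_of_length (by simpa using h1)
        rw [this]
      · intro h
        have hl := h.length_le
        have h1 : v.length = 1 := by
          have : 0 < v.length := List.length_pos_iff.2 hv
          simp at hl
          omega
        have := h.eq_of_length (by simpa using h1)
        rw [this]
    simp only [this]
  | cons a w ih =>
    rw [List.cons_append, occ_cons, ih, occ_cons]
    by_cases h1 : v = a :: (w ++ [b])
    · have h2 : v <+: a :: (w ++ [b]) := by rw [h1]
      have h3 : v <:+ a :: (w ++ [b]) := by rw [h1]
      have h4 : ¬ v <:+ (w ++ [b]) := by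
        intro h
        have := h.length_le
        rw [h1] at this
        simp at this
      have h5 : ¬ v <+: a :: w := by
        intro h
        have := h.length_le
        rw [h1] at this
        simp at this
      rw [if_neg h4, if_pos h2, if_neg h5, if_pos h3]
    · have h2 : (v <+: a :: (w ++ [b])) ↔ (v <+: a :: w) := by
        constructor
        · intro h
          have hl : v.length ≤ (a :: w).length := by
            have h3 := h.length_le
            rcases Nat.lt_or_ge (a :: w).length v.length with h4 | h4
            · exfalso
              apply h1
              apply h.eq_of_length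
              simp at h3 h4 ⊢
              omega
            · exact h4
          have h5 : (a :: w) <+: a :: (w ++ [b]) := ⟨[b], by simp⟩
          exact List.prefix_of_prefix_length_le h h5 hl
        · intro h
          exact h.trans ⟨[b], by simp⟩
      have h3 : (v <:+ a :: (w ++ [b])) ↔ (v <:+ (w ++ [b])) := by
        rw [List.suffix_cons_iff]
        constructor
        · rintro (h | h)
          · exact absurd h h1
          · exact h
        · intro h; exact Or.inr h
      simp only [h2, h3]
      omega

/-- suffixes and residues -/
lemma suffix_of_mod (v w : List Bool) (hl : v.length ≤ w.length)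
    (h : val w % 2 ^ v.length = val v) : v <:+ w := by
  refine ⟨w.take (w.length - v.length), ?_⟩
  have h1 : w = w.take (w.length - v.length) ++ w.drop (w.length - v.length) :=
    (List.take_append_drop _ _).symm
  have hlen : (w.drop (w.length - v.length)).length = v.length := by
    rw [List.length_drop]; omega
  have h2 : val (w.drop (w.length - v.length)) = val v := by
    rw [h1, val_append', hlen] at h
    rw [← h]
    have h3 := val_lt (w.drop (w.length - v.length))
    rw [hlen] at h3
    rw [Nat.mul_add_mod_self_right, Nat.mod_eq_of_lt h3]
  have h3 := val_inj _ _ hlen h2
  conv_rhs => rw [h1, h3]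

lemma mod_of_suffix (v w : List Bool) (h : v <:+ w) : val w % 2 ^ v.length = val v := by
  obtain ⟨x, rfl⟩ := h
  rw [val_append', Nat.mul_add_mod_self_right, Nat.mod_eq_of_lt (val_lt v)]

lemma lead_spec (v : List Bool) (h : true ∈ v) :
    ∃ v', v = List.replicate (lead v) false ++ true :: v' := by
  induction v with
  | nil => simp at h
  | cons a v ih =>
    cases a with
    | true => exact ⟨v, by simp [lead]⟩
    | false =>
      have h2 : true ∈ v := by simpa using h
      obtain ⟨v', hv'⟩ := ih h2
      refine ⟨v', ?_⟩
      have : lead (false :: v) = lead v + 1 := by simp [lead]
      rw [this, List.replicate_succ, List.cons_append, ← hv']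

lemma val_pos (v : List Bool) (h : true ∈ v) : 0 < val v := by
  obtain ⟨v', hv'⟩ := lead_spec v h
  rw [hv', val_append', val_replicate]
  have : val (true :: v') = 2 ^ v'.length + val v' := by
    have h1 : true :: v' = [true] ++ v' := rfl
    rw [h1, val_append']
    simp [val]
  rw [this]
  positivity

lemma eq_replicate (v : List Bool) (h : true ∉ v) : v = List.replicate v.length false := by
  rw [List.eq_replicate_iff]
  refine ⟨rfl, ?_⟩
  intro b hb
  cases b with
  | true => exact absurd hb h
  | false => rfl

lemma val_zero (v : List Bool) (h : true ∉ v) : val v = 0 := by
  rw [eq_replicate v h, val_replicate]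

lemma length_bin_pos (n : ℕ) (hn : n ≠ 0) : 0 < (bin n).length := by
  rw [bin_step n hn]; simp

lemma bin_length_lt (n k : ℕ) (h : 2 ^ k ≤ n) : k < (bin n).length := by
  have h1 := val_lt (bin n)
  rw [val_bin] at h1
  have h2 : 2 ^ k < 2 ^ (bin n).length := lt_of_le_of_lt h h1
  exact (Nat.pow_lt_pow_iff_right (by norm_num)).1 h2

lemma bin_head (n : ℕ) (hn : n ≠ 0) : ∃ t, bin n = true :: t := by
  induction n using Nat.strong_induction_on with
  | _ n ih =>
    rw [bin_step n hn]
    by_cases h2 : n / 2 = 0
    · have h1 : n = 1 := by omega
      subst h1
      exact ⟨[], by simp [bin_zero]⟩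
    · obtain ⟨t, ht⟩ := ih (n / 2) (by omega) h2
      rw [ht]
      exact ⟨t ++ [n.bodd], rfl⟩

/-- the count through residues -/
lemma ev_eq (v : List Bool) (hv : v ≠ []) (n : ℕ) : ev v n = E v.length (val v) n := by
  induction n using Nat.strong_induction_on with
  | _ n ih =>
    by_cases hn : n = 0
    · subst hn
      rw [E_zero]
      unfold ev
      rw [bin_zero, List.append_nil]
      split_ifs with h
      · have key : ∀ i, occ v (List.replicate i false) = 0 := by
          intro i
          induction i with
          | zero => exact occ_nil v hv
          | succ i ih2 =>
            rw [List.replicate_succ', occ_append v _ _ hv, ih2, if_neg]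
            intro hs
            have h3 := mod_of_suffix _ _ hs
            rw [← List.replicate_succ', val_replicate, Nat.zero_mod] at h3
            have := val_pos v h
            omega
        exact key _
      · exact occ_nil v hv
    · rw [E_pos _ _ n hn, ← ih (n / 2) (by omega)]
      unfold ev
      split_ifs with h h2 h2
      · rw [bin_step n hn, ← List.append_assoc, occ_append v _ _ hv, if_pos]
        rw [List.append_assoc, ← bin_step n hn]
        apply suffix_of_mod
        · by_contra hlt
          push Not at hlt
          rw [List.length_append, List.length_replicate] at hlt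
          obtain ⟨v', hv'⟩ := lead_spec v h
          have h3 : v.length = lead v + (v'.length + 1) := by
            conv_lhs => rw [hv']
            simp
          have h4 := val_lt (bin n)
          rw [val_bin] at h4
          have h5 : (bin n).length ≤ v.length := by omega
          have h6 : n < 2 ^ v.length := lt_of_lt_of_le h4 (Nat.pow_le_pow_right (by norm_num) h5)
          rw [Nat.mod_eq_of_lt h6] at h2
          have h7 : 2 ^ v'.length ≤ n := by
            rw [h2, hv', val_append', val_replicate]
            have : val (true :: v') = 2 ^ v'.length + val v' := by
              have h1 : true :: v' = [true] ++ v' := rfl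
              rw [h1, val_append']
              simp [val]
            rw [this]
            omega
          have h8 := bin_length_lt n v'.length h7
          omega
        · rw [val_append', val_replicate, zero_mul, zero_add, val_bin]
          exact h2
      · rw [bin_step n hn, ← List.append_assoc, occ_append v _ _ hv, if_neg]
        rw [List.append_assoc, ← bin_step n hn]
        intro hs
        apply h2
        have h3 := mod_of_suffix _ _ hs
        rw [val_append', val_replicate, zero_mul, zero_add, val_bin] at h3
        exact h3
      · rw [bin_step n hn, occ_append v _ _ hv, if_pos]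
        rw [← bin_step n hn]
        apply suffix_of_mod
        · rw [val_zero v h] at h2
          have h3 : 2 ^ v.length ≤ n :=
            Nat.le_of_dvd (Nat.pos_of_ne_zero hn) (Nat.dvd_of_mod_eq_zero h2)
          exact (bin_length_lt n _ h3).le
        · rw [val_bin]; exact h2
      · rw [bin_step n hn, occ_append v _ _ hv, if_neg]
        rw [← bin_step n hn]
        intro hs
        apply h2
        have h3 := mod_of_suffix _ _ hs
        rw [val_bin] at h3
        exact h3

end Q280.Pat
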