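import Pool.Agent.Q280.Pat.Growth

set_option autoImplicit false

/-!
# Independence of the parities along odd multiples
-/

open Finset

namespace Q280.Pat

/-- a parity defined through windows of length `K` -/
structure Win (K : ℕ) (φ G : ℕ → ZMod 2) : Prop where
  phi_zero : φ 0 = 0
  phi_congr : ∀ z z', z % 2 ^ K = z' % 2 ^ K → φ z = φ z'
  G_zero : G 0 = 0
  G_step : ∀ n, G n = φ n + G (n / 2)

namespace Win

variable {K : ℕ} {φ G : ℕ → ZMod 2}

lemma split (h : Win K φ G) (n P : ℕ) :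
    G n = ∑ p ∈ range P, φ (n / 2 ^ p) + G (n / 2 ^ P) := by
  induction P with
  | zero => simp
  | succ P ih =>
    rw [sum_range_succ, ih, h.G_step (n / 2 ^ P), Nat.div_div_eq_div_mul, ← pow_succ]
    ring

lemma block (h : Win K φ G) (M z x : ℕ) (hx : x < 2 ^ M) :
    G (2 ^ M * (2 ^ K * z) + x) = G (2 ^ K * z) + G x := by
  rw [h.split (2 ^ M * (2 ^ K * z) + x) M, div_high _ _ _ _ le_rfl hx, h.split x M,
    Nat.div_eq_of_lt hx, h.G_zero]
  simp only [Nat.sub_self, pow_zero, Nat.div_one]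
  have : ∑ p ∈ range M, φ ((2 ^ M * (2 ^ K * z) + x) / 2 ^ p) = ∑ p ∈ range M, φ (x / 2 ^ p) := by
    apply sum_congr rfl
    intro p hp
    rw [mem_range] at hp
    apply h.phi_congr
    rw [div_low _ _ _ _ hp.le]
    have : 2 ^ (M - p) * (2 ^ K * z) = 2 ^ K * (2 ^ (M - p) * z) := by ring
    rw [this, Nat.mul_add_mod]
  rw [this]
  ring

/-- the four point sum, no jump -/
lemma four_zero (h : Win K φ G) (b P X D : ℕ) (hP : P ≤ b + 1) (hD : 2 ^ K ∣ D)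
    (hj : (X + D) / 2 ^ P = X / 2 ^ P)
    (hj' : (X + D + 2 ^ b * D) / 2 ^ P = (X + 2 ^ b * D) / 2 ^ P) :
    G (X + D) + G X + G (X + D + 2 ^ b * D) + G (X + 2 ^ b * D) = 0 := by
  rw [h.split (X + D) P, h.split X P, h.split (X + D + 2 ^ b * D) P, h.split (X + 2 ^ b * D) P,
    hj, hj']
  have g1 : ∑ p ∈ range P, φ ((X + D + 2 ^ b * D) / 2 ^ p) =
      ∑ p ∈ range P, φ ((X + D) / 2 ^ p) := by
    apply sum_congr rfl
    intro p hp
    rw [mem_range] at hp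
    apply h.phi_congr
    have : X + D + 2 ^ b * D = 2 ^ b * D + (X + D) := by ring
    obtain ⟨q, hq⟩ := hD
    rw [this, div_low _ _ b p (by omega)]
    have : 2 ^ (b - p) * D = 2 ^ K * (2 ^ (b - p) * q) := by rw [hq]; ring
    rw [this, Nat.mul_add_mod]
  have g2 : ∑ p ∈ range P, φ ((X + 2 ^ b * D) / 2 ^ p) =
      ∑ p ∈ range P, φ (X / 2 ^ p) := by
    apply sum_congr rfl
    intro p hp
    rw [mem_range] at hp
    apply h.phi_congr
    have : X + 2 ^ b * D = 2 ^ b * D + X := by ring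
    obtain ⟨q, hq⟩ := hD
    rw [this, div_low _ _ b p (by omega)]
    have : 2 ^ (b - p) * D = 2 ^ K * (2 ^ (b - p) * q) := by rw [hq]; ring
    rw [this, Nat.mul_add_mod]
  rw [g1, g2]
  generalize (∑ p ∈ range P, φ ((X + D) / 2 ^ p)) = S1
  generalize (∑ p ∈ range P, φ (X / 2 ^ p)) = S2
  generalize G (X / 2 ^ P) = S3
  generalize G ((X + 2 ^ b * D) / 2 ^ P) = S4
  linear_combination two_eq S1 + two_eq S2 + two_eq S3 + two_eq S4

/-- the four point sum, with a jump -/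
lemma four_jump (h : Win K φ G) (b' D X m : ℕ) (hK : 1 ≤ K)
    (h3 : X / 2 ^ b' = m) (h3' : (X + D) / 2 ^ b' = m + 1) :
    G (X + D) + G X + G (X + D + 2 ^ (b' + K - 1) * D) + G (X + 2 ^ (b' + K - 1) * D) =
    G (m + 1) + G m + G (m + 1 + 2 ^ (K - 1) * D) + G (m + 2 ^ (K - 1) * D) := by
  set b := b' + K - 1 with hb
  have hbb : 2 ^ b = 2 ^ b' * 2 ^ (K - 1) := by rw [← pow_add]; congr 1; omega
  rw [h.split (X + D) b', h.split X b', h.split (X + D + 2 ^ b * D) b',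
    h.split (X + 2 ^ b * D) b', h3, h3']
  have f1 : (X + D + 2 ^ b * D) / 2 ^ b' = m + 1 + 2 ^ (K - 1) * D := by
    rw [hbb, mul_assoc, Nat.add_mul_div_left _ _ (by positivity), h3']
  have f2 : (X + 2 ^ b * D) / 2 ^ b' = m + 2 ^ (K - 1) * D := by
    rw [hbb, mul_assoc, Nat.add_mul_div_left _ _ (by positivity), h3]
  rw [f1, f2]
  have g1 : ∑ p ∈ range b', φ ((X + D + 2 ^ b * D) / 2 ^ p) =
      ∑ p ∈ range b', φ ((X + D) / 2 ^ p) := by
    apply sum_congr rfl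
    intro p hp
    rw [mem_range] at hp
    apply h.phi_congr
    have : X + D + 2 ^ b * D = 2 ^ b * D + (X + D) := by ring
    rw [this, div_low _ _ b p (by omega), add_comm (2 ^ (b - p) * _),
      add_mul_mod_pow _ _ _ _ (by omega)]
  have g2 : ∑ p ∈ range b', φ ((X + 2 ^ b * D) / 2 ^ p) =
      ∑ p ∈ range b', φ (X / 2 ^ p) := by
    apply sum_congr rfl
    intro p hp
    rw [mem_range] at hp
    apply h.phi_congr
    have : X + 2 ^ b * D = 2 ^ b * D + X := by ring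
    rw [this, div_low _ _ b p (by omega), add_comm (2 ^ (b - p) * _),
      add_mul_mod_pow _ _ _ _ (by omega)]
  rw [g1, g2]
  generalize (∑ p ∈ range b', φ ((X + D) / 2 ^ p)) = S1
  generalize (∑ p ∈ range b', φ (X / 2 ^ p)) = S2
  linear_combination two_eq S1 + two_eq S2

end Win

/-- the local obstruction -/
def Viol (K : ℕ) (G : ℕ → ZMod 2) : Prop :=
  ∀ c', c' % 2 = 1 → ∃ t m0, m0 < 2 ^ t ∧ 2 ^ K ∣ m0 ∧ K ≤ t ∧ ∀ m, 2 ^ t ≤ m →
    (m + 1) % 2 ^ t = m0 →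
    G (m + 1) + G m + G (m + 1 + 2 ^ (K - 1 + K) * c') + G (m + 2 ^ (K - 1 + K) * c') = 1

/-- no jump for smaller multiples -/
lemma no_jump (l j m M M0 d : ℕ) (hj : 1 ≤ j) (hjl : j < l) (hl : l % 2 = 1)
    (hm : Nat.Coprime l m) (hM0 : l * l ≤ 2 ^ M0) (hM : M0 ≤ M)
    (h1 : l * d < m * 2 ^ M) (h2 : m * 2 ^ M ≤ l * d + l) :
    (j * d + j) / 2 ^ M0 = (j * d) / 2 ^ M0 := by
  by_contra hne
  have hP : 0 < 2 ^ M0 := by positivity
  have hle : (j * d) / 2 ^ M0 ≤ (j * d + j) / 2 ^ M0 := Nat.div_le_div_right (by omega)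
  have hlt : (j * d) / 2 ^ M0 < (j * d + j) / 2 ^ M0 := lt_of_le_of_ne hle (fun h => hne h.symm)
  obtain ⟨k, hk⟩ : ∃ k, k = (j * d + j) / 2 ^ M0 := ⟨_, rfl⟩
  rw [← hk] at hlt
  have h3 : j * d < k * 2 ^ M0 := (Nat.div_lt_iff_lt_mul hP).1 hlt
  have h4 : k * 2 ^ M0 ≤ j * d + j := by rw [hk]; exact Nat.div_mul_le_self _ _
  have hMM : 2 ^ M = 2 ^ (M - M0) * 2 ^ M0 := by rw [← pow_add]; congr 1; omega
  rw [hMM] at h1 h2
  -- compare
  have a1 : j * (l * d) < j * (m * (2 ^ (M - M0) * 2 ^ M0)) := Nat.mul_lt_mul_of_pos_left h1 hj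
  have a2 : j * (m * (2 ^ (M - M0) * 2 ^ M0)) ≤ j * (l * d + l) := Nat.mul_le_mul_left _ h2
  have a3 : l * (j * d) < l * (k * 2 ^ M0) := Nat.mul_lt_mul_of_pos_left h3 (by omega)
  have a4 : l * (k * 2 ^ M0) ≤ l * (j * d + j) := Nat.mul_le_mul_left _ h4
  have hjl2 : j * l < 2 ^ M0 := lt_of_lt_of_le (Nat.mul_lt_mul_of_pos_right hjl (by omega)) hM0
  have key : l * k = j * m * 2 ^ (M - M0) := by
    have b1 : l * (k * 2 ^ M0) < j * (m * (2 ^ (M - M0) * 2 ^ M0)) + 2 ^ M0 := by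
      have : l * (j * d + j) = j * (l * d) + j * l := by ring
      omega
    have b2 : j * (m * (2 ^ (M - M0) * 2 ^ M0)) < l * (k * 2 ^ M0) + 2 ^ M0 := by
      have : j * (l * d + l) = l * (j * d) + j * l := by ring
      omega
    have e1 : l * (k * 2 ^ M0) = (l * k) * 2 ^ M0 := by ring
    have e2 : j * (m * (2 ^ (M - M0) * 2 ^ M0)) = (j * m * 2 ^ (M - M0)) * 2 ^ M0 := by ring
    rw [e1, e2] at b1 b2
    have c1 : l * k < j * m * 2 ^ (M - M0) + 1 := by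
      by_contra hc
      push Not at hc
      have := Nat.mul_le_mul_right (2 ^ M0) hc
      rw [add_mul, one_mul] at this
      omega
    have c2 : j * m * 2 ^ (M - M0) < l * k + 1 := by
      by_contra hc
      push Not at hc
      have := Nat.mul_le_mul_right (2 ^ M0) hc
      rw [add_mul, one_mul] at this
      omega
    omega
  have hdvd : l ∣ j * m * 2 ^ (M - M0) := ⟨k, key.symm⟩
  have hl2 : Nat.Coprime l (2 ^ (M - M0)) := by
    apply Nat.Coprime.pow_right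
    rw [Nat.coprime_two_right]
    exact Nat.odd_iff.2 hl
  have h5 := hl2.dvd_of_dvd_mul_right hdvd
  have h6 := hm.dvd_of_dvd_mul_right h5
  have := Nat.le_of_dvd hj h6
  omega

/-- the functions are independent -/
lemma indep {K : ℕ} {φ G : ℕ → ZMod 2} (h : Win K φ G) (hK : 1 ≤ K) (hv : Viol K G)
    (J : Finset ℕ) (hJ : J.Nonempty) (hodd : ∀ j ∈ J, j % 2 = 1) :
    ∃ d, ∑ j ∈ J, G (2 ^ K * (j * d)) ≠ 0 := by
  by_contra hcon
  push Not at hcon
  obtain ⟨l, hl⟩ : ∃ l, l = J.max' hJ := ⟨_, rfl⟩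
  have hlJ : l ∈ J := by rw [hl]; exact Finset.max'_mem _ _
  have hlmax : ∀ j ∈ J, j ≤ l := by intro j hj; rw [hl]; exact Finset.le_max' _ _ hj
  have hlodd := hodd l hlJ
  have hl1 : 1 ≤ l := by omega
  obtain ⟨t, m0, hm0, hdiv, hKt, hviol⟩ := hv l hlodd
  -- choice of `m`
  obtain ⟨q0, hq0⟩ := hdiv
  have hcop : Nat.Coprime l (2 ^ (t - K)) := by
    apply Nat.Coprime.pow_right
    rw [Nat.coprime_two_right]
    exact Nat.odd_iff.2 hlodd
  obtain ⟨m1, hm1, hm1'⟩ := Nat.chineseRemainder hcop 1 q0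
  obtain ⟨m, hm⟩ : ∃ m, m = m1 + l * 2 ^ (t - K) * (2 ^ t + 1) := ⟨_, rfl⟩
  have hmbig : 2 ^ t + 1 ≤ m := by
    have : 1 * (2 ^ t + 1) ≤ l * 2 ^ (t - K) * (2 ^ t + 1) :=
      Nat.mul_le_mul_right _ (Nat.mul_pos hl1 (by positivity))
    omega
  have hml : m ≡ 1 [MOD l] := by
    have e1 : m ≡ m1 [MOD l] := by
      rw [hm, mul_assoc]
      exact (Nat.add_mul_mod_self_left m1 l _)
    exact e1.trans hm1
  have hmcop : Nat.Coprime l m := by
    have := hml.gcd_eq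
    rw [Nat.Coprime, Nat.gcd_comm, this]
    simp
  have hmq : m ≡ q0 [MOD 2 ^ (t - K)] := by
    have e1 : m ≡ m1 [MOD 2 ^ (t - K)] := by
      rw [hm]
      have : l * 2 ^ (t - K) * (2 ^ t + 1) = 2 ^ (t - K) * (l * (2 ^ t + 1)) := by ring
      rw [this]
      exact (Nat.add_mul_mod_self_left m1 _ _)
    exact e1.trans hm1'
  have hmod : (2 ^ K * m) % 2 ^ t = m0 := by
    have h2t : 2 ^ t = 2 ^ K * 2 ^ (t - K) := by rw [← pow_add]; congr 1; omega
    rw [h2t, Nat.mul_mod_mul_left, hmq, ← Nat.mul_mod_mul_left, ← h2t, ← hq0,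
      Nat.mod_eq_of_lt hm0]
  -- levels
  obtain ⟨M0, hM0⟩ : ∃ M0, l * l ≤ 2 ^ M0 := ⟨_, Nat.lt_two_pow_self.le⟩
  obtain ⟨M, hM⟩ : ∃ M, M = M0 + K := ⟨_, rfl⟩
  obtain ⟨d, hd⟩ : ∃ d, d = (m * 2 ^ M - 1) / l := ⟨_, rfl⟩
  have hmM : 1 ≤ m * 2 ^ M := Nat.mul_pos (by omega) (by positivity)
  have h1 : l * d < m * 2 ^ M := by
    have : l * d ≤ m * 2 ^ M - 1 := by rw [hd]; exact Nat.mul_div_le _ _
    omega
  have h2 : m * 2 ^ M ≤ l * d + l := by
    have := Nat.lt_mul_div_succ (m * 2 ^ M - 1) hl1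
    rw [← hd] at this
    have e : l * (d + 1) = l * d + l := by ring
    omega
  -- the four points
  obtain ⟨b, hb⟩ : ∃ b, b = M + K - 1 := ⟨_, rfl⟩
  have hsum := hcon d
  have hsum1 := hcon (d + 1)
  have hsum2 := hcon (d + 2 ^ b)
  have hsum3 := hcon (d + 1 + 2 ^ b)
  have htot : ∑ j ∈ J, (G (2 ^ K * (j * (d + 1))) + G (2 ^ K * (j * d)) +
      G (2 ^ K * (j * (d + 1 + 2 ^ b))) + G (2 ^ K * (j * (d + 2 ^ b)))) = 0 := by
    rw [sum_add_distrib, sum_add_distrib, sum_add_distrib, hsum, hsum1, hsum2, hsum3]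
    ring
  rw [Finset.sum_eq_single l] at htot
  · -- the term `l` is one
    have e1 : 2 ^ K * (l * (d + 1)) = 2 ^ K * (l * d) + 2 ^ K * l := by ring
    have e2 : 2 ^ K * (l * (d + 1 + 2 ^ b)) = 2 ^ K * (l * d) + 2 ^ K * l +
        2 ^ (M + K - 1) * (2 ^ K * l) := by rw [← hb]; ring
    have e3 : 2 ^ K * (l * (d + 2 ^ b)) = 2 ^ K * (l * d) + 2 ^ (M + K - 1) * (2 ^ K * l) := by
      rw [← hb]; ring
    rw [e1, e2, e3] at htot
    have hlM : 2 ^ K * l ≤ 2 ^ M := by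
      have : l ≤ 2 ^ M0 := (Nat.le_mul_of_pos_left l hl1).trans hM0
      rw [hM, pow_add, mul_comm]
      exact Nat.mul_le_mul_right _ this
    have hKm : 1 ≤ 2 ^ K * m := Nat.mul_pos (by positivity) (by omega)
    have f1 : 2 ^ K * (l * d) / 2 ^ M = 2 ^ K * m - 1 := by
      apply (Nat.div_eq_iff (by positivity)).2
      have g1 : 2 ^ K * (l * d) < 2 ^ K * (m * 2 ^ M) := Nat.mul_lt_mul_of_pos_left h1 (by positivity)
      have g2 : 2 ^ K * (m * 2 ^ M) ≤ 2 ^ K * (l * d + l) := Nat.mul_le_mul_left _ h2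
      have g3 : (2 ^ K * m - 1) * 2 ^ M = 2 ^ K * (m * 2 ^ M) - 2 ^ M := by
        rw [Nat.sub_mul, one_mul, mul_assoc]
      have g4 : 2 ^ K * (l * d + l) = 2 ^ K * (l * d) + 2 ^ K * l := by ring
      rw [g3]
      have g5 : 1 * 2 ^ M ≤ 2 ^ K * m * 2 ^ M := Nat.mul_le_mul_right _ hKm
      rw [mul_assoc, one_mul] at g5
      have g6 : 0 < 2 ^ M := by positivity
      omega
    have f2 : (2 ^ K * (l * d) + 2 ^ K * l) / 2 ^ M = 2 ^ K * m - 1 + 1 := by
      have g1 : 2 ^ K * (l * d) < 2 ^ K * (m * 2 ^ M) := Nat.mul_lt_mul_of_pos_left h1 (by positivity)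
      have g2 : 2 ^ K * (m * 2 ^ M) ≤ 2 ^ K * (l * d + l) := Nat.mul_le_mul_left _ h2
      have g4 : 2 ^ K * (l * d + l) = 2 ^ K * (l * d) + 2 ^ K * l := by ring
      have g7 : 2 ^ K * m - 1 + 1 = 2 ^ K * m := by omega
      rw [g7]
      apply (Nat.div_eq_iff (by positivity)).2
      have g3 : (2 ^ K * m) * 2 ^ M = 2 ^ K * (m * 2 ^ M) := by ring
      rw [g3]
      have g6 : 0 < 2 ^ M := by positivity
      omega
    have key := h.four_jump M (2 ^ K * l) (2 ^ K * (l * d)) (2 ^ K * m - 1) hK f1 f2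
    rw [htot] at key
    have e4 : 2 ^ (K - 1) * (2 ^ K * l) = 2 ^ (K - 1 + K) * l := by rw [pow_add]; ring
    rw [e4, hviol (2 ^ K * m - 1) (by
      have : 1 * m ≤ 2 ^ K * m := Nat.mul_le_mul_right _ Nat.one_le_two_pow
      omega) (by
      have : 2 ^ K * m - 1 + 1 = 2 ^ K * m := by omega
      rw [this]; exact hmod)] at key
    exact absurd key (by decide)
  · intro j hj hjl
    have hjl' : j < l := lt_of_le_of_ne (hlmax j hj) hjl
    have hj1 : 1 ≤ j := by have := hodd j hj; omega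
    have e1 : 2 ^ K * (j * (d + 1)) = 2 ^ K * (j * d) + 2 ^ K * j := by ring
    have e2 : 2 ^ K * (j * (d + 1 + 2 ^ b)) = 2 ^ K * (j * d) + 2 ^ K * j +
        2 ^ b * (2 ^ K * j) := by ring
    have e3 : 2 ^ K * (j * (d + 2 ^ b)) = 2 ^ K * (j * d) + 2 ^ b * (2 ^ K * j) := by
      ring
    rw [e1, e2, e3]
    have hnj := no_jump l j m M M0 d hj1 hjl' hlodd hmcop hM0 (by omega) h1 h2
    have f1 : (2 ^ K * (j * d) + 2 ^ K * j) / 2 ^ (K + M0) = 2 ^ K * (j * d) / 2 ^ (K + M0) := by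
      rw [← mul_add, pow_add, Nat.mul_div_mul_left _ _ (by positivity),
        Nat.mul_div_mul_left _ _ (by positivity), hnj]
    have f2 : (2 ^ K * (j * d) + 2 ^ K * j + 2 ^ b * (2 ^ K * j)) / 2 ^ (K + M0) =
        (2 ^ K * (j * d) + 2 ^ b * (2 ^ K * j)) / 2 ^ (K + M0) := by
      have g1 : 2 ^ b * (2 ^ K * j) = 2 ^ (K + M0) * (2 ^ (b + K - (K + M0)) * j) := by
        have : 2 ^ b * 2 ^ K = 2 ^ (K + M0) * 2 ^ (b + K - (K + M0)) := by
          rw [← pow_add, ← pow_add]; congr 1; omega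
        calc 2 ^ b * (2 ^ K * j) = (2 ^ b * 2 ^ K) * j := by ring
          _ = _ := by rw [this]; ring
      rw [g1, Nat.add_mul_div_left _ _ (by positivity), Nat.add_mul_div_left _ _ (by positivity),
        f1]
    exact h.four_zero b (K + M0) _ _ (by omega) (Dvd.intro _ rfl) f1 f2
  · intro hc
    exact absurd hlJ hc

end Q280.Pat
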