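import Pool.Agent.Q280.Pat.Unif

set_option autoImplicit false

/-!
# Long progressions
-/

open Finset

namespace Q280.Pat

lemma chi_congr' (K V z z' : ℕ) (hV : V ≠ 0) (hm : z % 2 ^ K = z' % 2 ^ K) :
    chi K V z = chi K V z' := by
  unfold chi
  have h1 : (z ≠ 0 ∧ z % 2 ^ K = V) ↔ (z % 2 ^ K = V) := by
    constructor
    · exact fun h => h.2
    · intro h
      refine ⟨?_, h⟩
      rintro rfl
      simp at h
      exact hV h.symm
  have h2 : (z' ≠ 0 ∧ z' % 2 ^ K = V) ↔ (z' % 2 ^ K = V) := by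
    constructor
    · exact fun h => h.2
    · intro h
      refine ⟨?_, h⟩
      rintro rfl
      simp at h
      exact hV h.symm
  simp only [h1, h2]
  rw [hm]

lemma growth_pos (K V e m : ℕ) (hV : V ≠ 0) (hm : m < 2 ^ e) (hd : 2 ^ K ∣ m) :
    F K V (2 ^ e * m + m) = 0 := by
  rw [F_split K V (2 ^ e * m + m) e, div_high m m e e le_rfl hm]
  simp only [Nat.sub_self, pow_zero, Nat.div_one]
  conv_lhs => rw [F_split K V m e]
  rw [Nat.div_eq_of_lt hm, F_zero, add_zero]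
  have : ∑ p ∈ range e, chi K V ((2 ^ e * m + m) / 2 ^ p) =
      ∑ p ∈ range e, chi K V (m / 2 ^ p) := by
    apply sum_congr rfl
    intro p hp
    rw [mem_range] at hp
    apply chi_congr' K V _ _ hV
    rw [div_low _ _ _ _ hp.le]
    obtain ⟨q, hq⟩ := hd
    have : 2 ^ (e - p) * m = 2 ^ K * (2 ^ (e - p) * q) := by rw [hq]; ring
    rw [this, Nat.mul_add_mod]
  rw [this, two_eq]

lemma F_pow_small (K j : ℕ) (hj : j < K) : F K 0 (2 ^ j) = 0 := by
  induction j with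
  | zero =>
    rw [F_step, pow_zero]
    have : (1 : ℕ) / 2 = 0 := by norm_num
    rw [this, F_zero, add_zero]
    unfold chi
    rw [if_neg]
    rintro ⟨-, h⟩
    have : 1 < 2 ^ K := Nat.one_lt_two_pow (by omega)
    rw [Nat.mod_eq_of_lt this] at h
    omega
  | succ j ih =>
    rw [F_step]
    have : 2 ^ (j + 1) / 2 = 2 ^ j := by rw [pow_succ]; simp
    rw [this, ih (by omega), add_zero]
    unfold chi
    rw [if_neg]
    rintro ⟨-, h⟩
    have : 2 ^ (j + 1) < 2 ^ K := Nat.pow_lt_pow_right (by norm_num) hj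
    rw [Nat.mod_eq_of_lt this] at h
    have : 0 < 2 ^ (j + 1) := by positivity
    omega

lemma growth_zero (K e m : ℕ) (hK : 1 ≤ K) (hm : m < 2 ^ e) (hd : 2 ^ K ∣ m) :
    F K 0 (2 ^ (2 * e + K - 1) + (2 ^ e * m + m)) = 0 := by
  have h1 : 2 ^ (2 * e + K - 1) + (2 ^ e * m + m) = 2 ^ e * (2 ^ (e + K - 1) + m) + m := by
    have : 2 ^ (2 * e + K - 1) = 2 ^ e * 2 ^ (e + K - 1) := by
      rw [← pow_add]; congr 1; omega
    rw [this]; ring
  have h2 : 2 ^ (e + K - 1) + m = 2 ^ e * 2 ^ (K - 1) + m := by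
    have : 2 ^ (e + K - 1) = 2 ^ e * 2 ^ (K - 1) := by
      rw [← pow_add]; congr 1; omega
    rw [this]
  rw [h1, F_split K 0 _ e, div_high _ m e e le_rfl hm]
  simp only [Nat.sub_self, pow_zero, Nat.div_one]
  rw [h2]
  conv_lhs =>
    arg 2
    rw [F_split K 0 (2 ^ e * 2 ^ (K - 1) + m) e, div_high _ m e e le_rfl hm]
  simp only [Nat.sub_self, pow_zero, Nat.div_one]
  rw [F_pow_small K (K - 1) (by omega), add_zero]
  obtain ⟨q, hq⟩ := hd
  have : ∑ p ∈ range e, chi K 0 ((2 ^ e * (2 ^ e * 2 ^ (K - 1) + m) + m) / 2 ^ p) =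
      ∑ p ∈ range e, chi K 0 ((2 ^ e * 2 ^ (K - 1) + m) / 2 ^ p) := by
    apply sum_congr rfl
    intro p hp
    rw [mem_range] at hp
    have hpe : 2 ^ p < 2 ^ e := Nat.pow_lt_pow_right (by norm_num) hp
    have hK1 : 1 ≤ 2 ^ (K - 1) := Nat.one_le_two_pow
    have hbig : 2 ^ p ≤ 2 ^ e * 2 ^ (K - 1) + m := by
      have : 2 ^ e * 1 ≤ 2 ^ e * 2 ^ (K - 1) := Nat.mul_le_mul_left _ hK1
      omega
    apply chi_congr
    · intro hc
      rw [Nat.div_eq_zero_iff] at hc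
      rcases hc with hc | hc
      · exact absurd hc (by positivity)
      · have : 1 * (2 ^ e * 2 ^ (K - 1) + m) ≤ 2 ^ e * (2 ^ e * 2 ^ (K - 1) + m) :=
          Nat.mul_le_mul_right _ Nat.one_le_two_pow
        omega
    · intro hc
      rw [Nat.div_eq_zero_iff] at hc
      rcases hc with hc | hc
      · exact absurd hc (by positivity)
      · omega
    · rw [div_low _ _ _ _ hp.le, div_low _ _ _ _ hp.le]
      have e1 : 2 ^ (e - p) * (2 ^ e * 2 ^ (K - 1) + m) =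
          2 ^ K * (2 ^ (e - p) * (2 ^ (e - 1) + q)) := by
        have hh : 2 ^ e * 2 ^ (K - 1) = 2 ^ K * 2 ^ (e - 1) := by
          rw [← pow_add, ← pow_add]; congr 1; omega
        rw [hh, hq]; ring
      have e2 : 2 ^ (e - p) * 2 ^ (K - 1) = 2 ^ K * 2 ^ (e - p - 1) := by
        rw [← pow_add, ← pow_add]; congr 1; omega
      rw [e1, e2, Nat.mul_add_mod, Nat.mul_add_mod]
  rw [this, two_eq]

/-- the parity of `ev` -/
lemma ev_parity (v : List Bool) (hv : v ≠ []) (n m : ℕ) :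
    ev v n % 2 ≠ ev v m % 2 ↔ F v.length (val v) n ≠ F v.length (val v) m := by
  unfold F
  rw [ev_eq v hv, ev_eq v hv, Ne, Ne, not_iff_not]
  exact (ZMod.natCast_eq_natCast_iff' _ _ 2).symm

lemma A_eq (v : List Bool) (hv : v ≠ []) (n d : ℕ) :
    A v n d = sInf {l : ℕ | 1 ≤ l ∧ F v.length (val v) (n + l * d) ≠ F v.length (val v) n} := by
  unfold A
  congr 1
  ext l
  simp only [Set.mem_ofPred_eq]
  rw [ev_parity v hv]

lemma length_pos (v : List Bool) (hv : v ≠ []) : 1 ≤ v.length := List.length_pos_iff.2 hv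

lemma A_bound (v : List Bool) (hv : v ≠ []) (d : ℕ) (hd : 1 ≤ d) :
    ∃ C, ∀ n, A v n d ≤ C := by
  obtain ⟨C, hC⟩ := finite_bound v.length (val v) d (length_pos v hv) (val_lt v) hd
  refine ⟨C, fun n => ?_⟩
  obtain ⟨l, h1, h2, h3⟩ := hC n
  rw [A_eq v hv]
  exact (Nat.sInf_le (show l ∈ {l : ℕ | 1 ≤ l ∧ F v.length (val v) (n + l * d) ≠
    F v.length (val v) n} from ⟨h1, h3⟩)).trans h2

lemma A_nonempty (v : List Bool) (hv : v ≠ []) (n d : ℕ) (hd : 1 ≤ d) :
    {l : ℕ | 1 ≤ l ∧ F v.length (val v) (n + l * d) ≠ F v.length (val v) n}.Nonempty := by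
  obtain ⟨C, hC⟩ := finite_bound v.length (val v) d (length_pos v hv) (val_lt v) hd
  obtain ⟨l, h1, h2, h3⟩ := hC n
  exact ⟨l, h1, h3⟩

lemma A_ge (v : List Bool) (hv : v ≠ []) (n d L : ℕ) (hd : 1 ≤ d)
    (h : ∀ l, l < L → F v.length (val v) (n + l * d) = F v.length (val v) n) :
    L ≤ A v n d := by
  rw [A_eq v hv]
  have h1 := Nat.sInf_mem (A_nonempty v hv n d hd)
  by_contra hc
  push Not at hc
  exact h1.2 (h _ hc)

lemma Amax_le (v : List Bool) (d C : ℕ) (h : ∀ n, A v n d ≤ C) :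
    Amax v d ≤ C := by
  unfold Amax
  apply csSup_le (Set.range_nonempty _)
  rintro _ ⟨n, rfl⟩
  exact h n

lemma le_Amax (v : List Bool) (hv : v ≠ []) (n d : ℕ) (hd : 1 ≤ d) : A v n d ≤ Amax v d := by
  unfold Amax
  obtain ⟨C, hC⟩ := A_bound v hv d hd
  apply le_csSup
  · exact ⟨C, by rintro _ ⟨m, rfl⟩; exact hC m⟩
  · exact ⟨n, rfl⟩

lemma A_growth (v : List Bool) (hv : v ≠ []) (D e L : ℕ) (hD : 1 ≤ D) (hdvd : 2 ^ v.length ∣ D)
    (hL : L * D ≤ 2 ^ e) :
    ∃ n, L ≤ A v n (2 ^ e * D + D) ∧ (true ∈ v → n = 0) := by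
  have hlt : ∀ l, l < L → l * D < 2 ^ e := by
    intro l hl
    have : l * D < L * D := Nat.mul_lt_mul_of_pos_right hl hD
    omega
  by_cases ht : true ∈ v
  · refine ⟨0, ?_, fun _ => rfl⟩
    apply A_ge v hv _ _ _ (by omega)
    intro l hl
    rw [F_zero]
    have : 0 + l * (2 ^ e * D + D) = 2 ^ e * (l * D) + l * D := by ring
    rw [this]
    exact growth_pos _ _ _ _ (val_pos v ht).ne' (hlt l hl) (Dvd.dvd.mul_left hdvd l)
  · refine ⟨2 ^ (2 * e + v.length - 1), ?_, fun h => absurd h ht⟩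
    apply A_ge v hv _ _ _ (by omega)
    intro l hl
    rw [val_zero v ht]
    have : 2 ^ (2 * e + v.length - 1) + l * (2 ^ e * D + D) =
        2 ^ (2 * e + v.length - 1) + (2 ^ e * (l * D) + l * D) := by ring
    rw [this, growth_zero _ _ _ (length_pos v hv) (hlt l hl) (Dvd.dvd.mul_left hdvd l)]
    have h0 := growth_zero v.length e 0 (length_pos v hv) (by positivity) (dvd_zero _)
    simp only [mul_zero, add_zero] at h0
    rw [h0]

end Q280.Pat
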