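import Pool.Agent.Q280.Pat.Surj

set_option autoImplicit false

/-!
# The two kinds of patterns
-/

open Finset

namespace Q280.Pat

lemma win_pos (K V : ℕ) (hV : V ≠ 0) :
    Win K (fun z => if z % 2 ^ K = V then 1 else 0) (F K V) where
  phi_zero := by
    refine if_neg ?_
    intro h
    rw [Nat.zero_mod] at h
    exact hV h.symm
  phi_congr := by
    intro z z' h
    simp only [h]
  G_zero := F_zero K V
  G_step := by
    intro n
    rw [F_step]
    congr 1
    unfold chi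
    by_cases h : n % 2 ^ K = V
    · have hn : n ≠ 0 := by
        rintro rfl
        rw [Nat.zero_mod] at h
        exact hV h.symm
      rw [if_pos ⟨hn, h⟩, if_pos h]
    · rw [if_neg (fun hc => h hc.2), if_neg h]

lemma viol_pos (K V : ℕ) (hK : 1 ≤ K) (hV : V < 2 ^ K) : Viol K (F K V) := by
  intro c' hc'
  obtain ⟨t, m0, -, h1, h2, h3, h4⟩ := violation K V K hK hV
  exact ⟨t, m0, h1, h2, h3, fun m hm hmod => h4 c' hc' m hm hmod⟩

lemma surj_pos (K V : ℕ) (hK : 1 ≤ K) (hV : V < 2 ^ K) (hV0 : V ≠ 0) (l : ℕ) (τ : ℕ → ZMod 2) :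
    ∃ d, ∀ j, j ≤ l → j % 2 = 1 → F K V (2 ^ K * (j * d)) = τ j :=
  surj (win_pos K V hV0) hK (viol_pos K V hK hV) l τ

/-! ### the pattern of zeros -/

/-- the corrected parity -/
def G0 (K n : ℕ) : ZMod 2 := (Nat.size n : ZMod 2) + F K 0 n

lemma size_half (n : ℕ) (hn : n ≠ 0) : Nat.size n = Nat.size (n / 2) + 1 := by
  have h1 : n = Nat.bit n.bodd (n / 2) := by
    rw [← Nat.div2_val, Nat.bit_bodd_div2]
  conv_lhs => rw [h1]
  rw [Nat.size_bit]
  rw [← h1]; exact hn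

lemma win_zero (K : ℕ) :
    Win K (fun z => if z % 2 ^ K = 0 then 0 else 1) (G0 K) where
  phi_zero := by simp
  phi_congr := by
    intro z z' h
    simp only [h]
  G_zero := by simp [G0, F_zero]
  G_step := by
    intro n
    by_cases hn : n = 0
    · subst hn; simp [G0, F_zero]
    · unfold G0
      rw [F_step, size_half n hn]
      unfold chi
      push_cast
      by_cases h : n % 2 ^ K = 0
      · rw [if_pos ⟨hn, h⟩, if_pos h]
        have : ∀ a b : ZMod 2, a + 1 + (1 + b) = 0 + (a + b) := by decide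
        exact this _ _
      · rw [if_neg (fun hc => h hc.2), if_neg h]
        ring

lemma size_succ (m t : ℕ) (hm : 2 ^ t ≤ m) (h : (m + 1) % 2 ^ t ≠ 0) :
    Nat.size (m + 1) = Nat.size m := by
  apply le_antisymm
  · rw [Nat.size_le]
    have h1 : m < 2 ^ Nat.size m := Nat.lt_size_self m
    by_contra hc
    have h2 : m + 1 = 2 ^ Nat.size m := by omega
    have h3 : 2 ^ t < 2 ^ Nat.size m := by omega
    have h4 : t < Nat.size m := (Nat.pow_lt_pow_iff_right (by norm_num)).1 h3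
    apply h
    rw [h2]
    exact Nat.mod_eq_zero_of_dvd (pow_dvd_pow 2 h4.le)
  · exact Nat.size_le_size (by omega)

lemma viol_zero (K : ℕ) (hK : 1 ≤ K) : Viol K (G0 K) := by
  intro c' hc'
  obtain ⟨t, m0, ht, h1, h2, h3, h4⟩ := violation K 0 K hK (by positivity)
  obtain ⟨y, hy⟩ : ∃ y, y = 2 ^ (K - 1 + K) * c' := ⟨_, rfl⟩
  have h4t : 2 ^ (t + 2) = 4 * 2 ^ t := by rw [pow_add]; ring
  have htp : 0 < 2 ^ t := by positivity
  -- a good residue
  obtain ⟨x, hx1, hx2, hx3⟩ : ∃ x, 1 ≤ x ∧ x ≤ 2 ∧ (m0 + 2 ^ t * x + y) % 2 ^ (t + 2) ≠ 0 := by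
    by_cases hc : (m0 + 2 ^ t * 1 + y) % 2 ^ (t + 2) ≠ 0
    · exact ⟨1, le_rfl, by omega, hc⟩
    · push Not at hc
      refine ⟨2, by omega, le_rfl, ?_⟩
      have e1 : m0 + 2 ^ t * 2 + y = (m0 + 2 ^ t * 1 + y) + 2 ^ t := by ring
      rw [e1, Nat.add_mod, hc, zero_add, Nat.mod_mod, Nat.mod_eq_of_lt (by omega)]
      omega
  refine ⟨t + 2, m0 + 2 ^ t * x, ?_, ?_, by omega, ?_⟩
  · have : 2 ^ t * x ≤ 2 ^ t * 2 := Nat.mul_le_mul_left _ hx2
    omega
  · exact dvd_add h2 (Dvd.dvd.mul_right (pow_dvd_pow 2 h3) _)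
  · intro m hm hmod
    have hm' : 2 ^ t ≤ m := by omega
    have hmod' : (m + 1) % 2 ^ t = m0 := by
      have e1 : (m + 1) % 2 ^ (t + 2) % 2 ^ t = (m + 1) % 2 ^ t :=
        Nat.mod_mod_of_dvd _ (pow_dvd_pow 2 (by omega))
      rw [← e1, hmod, Nat.add_mul_mod_self_left, Nat.mod_eq_of_lt h1]
    have key := h4 c' hc' m hm' hmod'
    have s1 : Nat.size (m + 1) = Nat.size m := by
      apply size_succ m (t + 2) hm
      rw [hmod]
      have : 2 ^ t * 1 ≤ 2 ^ t * x := Nat.mul_le_mul_left _ hx1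
      omega
    have s2 : Nat.size (m + 1 + 2 ^ (K - 1 + K) * c') = Nat.size (m + 2 ^ (K - 1 + K) * c') := by
      have e2 : m + 1 + 2 ^ (K - 1 + K) * c' = m + 2 ^ (K - 1 + K) * c' + 1 := by ring
      rw [e2]
      apply size_succ _ (t + 2) (by omega)
      rw [← e2, ← hy, Nat.add_mod, hmod]
      rw [Nat.add_mod] at hx3
      have e3 : (m0 + 2 ^ t * x) % 2 ^ (t + 2) = m0 + 2 ^ t * x := by
        apply Nat.mod_eq_of_lt
        have : 2 ^ t * x ≤ 2 ^ t * 2 := Nat.mul_le_mul_left _ hx2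
        omega
      rw [e3] at hx3
      exact hx3
    unfold G0
    rw [s1, s2]
    generalize (Nat.size m : ZMod 2) = a at key ⊢
    generalize (Nat.size (m + 2 ^ (K - 1 + K) * c') : ZMod 2) = b at key ⊢
    linear_combination key + two_eq a + two_eq b

lemma size_block (P j y : ℕ) (hj : 1 ≤ j) (hy : y < 2 ^ P) :
    Nat.size (2 ^ P * j + y) = P + Nat.size j := by
  induction P generalizing y with
  | zero =>
    have : y = 0 := by simpa using hy
    subst this
    simp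
  | succ P ih =>
    have h1 : 2 ^ (P + 1) * j + y ≠ 0 := by
      have : 0 < 2 ^ (P + 1) * j := Nat.mul_pos (by positivity) hj
      omega
    rw [size_half _ h1]
    have h2 : (2 ^ (P + 1) * j + y) / 2 = 2 ^ P * j + y / 2 := by
      have : 2 ^ (P + 1) * j = 2 * (2 ^ P * j) := by rw [pow_succ]; ring
      rw [this]; omega
    rw [h2, ih (y / 2) (by rw [pow_succ] at hy; omega)]
    ring

lemma surj_zero (K : ℕ) (hK : 1 ≤ K) (l : ℕ) (τ : ℕ → ZMod 2) :
    ∃ d, d % 2 = 1 ∧ ∀ j, j ≤ l → j % 2 = 1 → F K 0 (j * d) = τ j := by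
  have hw := win_zero K
  obtain ⟨d1, hd1⟩ := surj hw hK (viol_zero K hK) l
    (fun j => τ j + (Nat.size j : ZMod 2) + G0 K (2 ^ K * j) + G0 K j)
  obtain ⟨x, hx⟩ : ∃ x, x = 1 + 2 ^ l * (2 ^ K * d1) := ⟨_, rfl⟩
  obtain ⟨T, hT⟩ : ∃ T, T = 2 * (l * x) + K := ⟨_, rfl⟩
  have hK2 : 2 ^ K = 2 * 2 ^ (K - 1) := by rw [← pow_succ']; congr 1; omega
  refine ⟨x + 2 ^ T * 2 ^ K, ?_, ?_⟩
  · rw [hx, hK2]
    have e1 : 1 + 2 ^ l * (2 * 2 ^ (K - 1) * d1) + 2 ^ T * (2 * 2 ^ (K - 1)) =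
        1 + 2 * (2 ^ l * (2 ^ (K - 1) * d1) + 2 ^ T * 2 ^ (K - 1)) := by ring
    rw [e1]; omega
  · intro j hj hj2
    have hG : F K 0 (j * (x + 2 ^ T * 2 ^ K)) = G0 K (j * (x + 2 ^ T * 2 ^ K)) +
        (Nat.size (j * (x + 2 ^ T * 2 ^ K)) : ZMod 2) := by
      unfold G0
      have : ∀ a b : ZMod 2, b = a + b + a := by decide
      exact this _ _
    have hjx : j * x < 2 ^ T := by
      have h1 : j * x ≤ l * x := Nat.mul_le_mul_right _ hj
      have h2 : T < 2 ^ T := Nat.lt_two_pow_self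
      omega
    have hjl : j < 2 ^ l := lt_of_le_of_lt hj Nat.lt_two_pow_self
    have e1 : j * (x + 2 ^ T * 2 ^ K) = 2 ^ T * (2 ^ K * j) + j * x := by ring
    have e2 : j * x = 2 ^ l * (2 ^ K * (j * d1)) + j := by rw [hx]; ring
    have e3 : 2 ^ T * (2 ^ K * j) + j * x = 2 ^ (T + K) * j + j * x := by rw [pow_add]; ring
    rw [hG, e1, hw.block _ _ _ hjx, e3, size_block _ _ _ (by omega) (lt_of_lt_of_le hjx
      (Nat.pow_le_pow_right (by norm_num) (by omega))), e2, hw.block _ _ _ hjl, hd1 j hj hj2]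
    have e4 : ((T + K + Nat.size j : ℕ) : ZMod 2) = (Nat.size j : ZMod 2) := by
      have : T + K + Nat.size j = 2 * (l * x + K) + Nat.size j := by rw [hT]; ring
      rw [this]
      push_cast
      have : (2 : ZMod 2) = 0 := by decide
      rw [this]; ring
    rw [e4]
    have : ∀ a b c d : ZMod 2, c + (a + b + c + d + d) + b = a := by decide
    exact this _ _ _ _

end Q280.Pat
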