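import Pool.Agent.Q280.Pat.Reg

set_option autoImplicit false

/-!
# Regularity of the length sequences
-/

open Finset

namespace Q280.Pat

/-- the sequence of lengths from the origin -/
noncomputable def seqZero (v : List Bool) (d : ℕ) : ℤ := if d = 0 then 0 else (A v 0 d : ℤ)

/-- the sequence of maximal lengths -/
noncomputable def seqMax (v : List Bool) (d : ℕ) : ℤ := if d = 0 then 0 else (Amax v d : ℤ)

/-- odd primes -/
noncomputable def op (i : ℕ) : ℕ := Nat.nth Nat.Prime (i + 1)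

lemma op_prime (i : ℕ) : (op i).Prime := Nat.prime_nth_prime _

lemma op_ne_two (i : ℕ) : op i ≠ 2 := by
  unfold op
  rw [← Nat.nth_prime_zero_eq_two]
  intro h
  have := Nat.nth_injective Nat.infinite_setOfPred_prime h
  omega

lemma op_inj (i j : ℕ) (h : op i = op j) : i = j := by
  unfold op at h
  have := Nat.nth_injective Nat.infinite_setOfPred_prime h
  omega

lemma not_dvd (K i j : ℕ) (h : i ≠ j) (t : ℕ) : ¬ 2 ^ K * op i ∣ 2 ^ K * op j * 2 ^ t := by
  intro hd
  have h1 : op i ∣ 2 ^ K * op j * 2 ^ t := (Dvd.intro_left _ rfl).trans hd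
  have hp := op_prime i
  rcases (Nat.Prime.dvd_mul hp).1 h1 with h2 | h2
  · rcases (Nat.Prime.dvd_mul hp).1 h2 with h3 | h3
    · exact op_ne_two i ((Nat.prime_dvd_prime_iff_eq hp Nat.prime_two).1 (hp.dvd_of_dvd_pow h3))
    · exact h (op_inj i j ((Nat.prime_dvd_prime_iff_eq hp (op_prime j)).1 h3))
  · exact op_ne_two i ((Nat.prime_dvd_prime_iff_eq hp Nat.prime_two).1 (hp.dvd_of_dvd_pow h2))

lemma off_bound (v : List Bool) (hv : v ≠ []) (i j : ℕ) (h : i ≠ j) :
    ∃ C e0 : ℕ, ∀ e, e0 ≤ e → ∀ n, A v n (2 ^ e * (2 ^ v.length * op i) +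
      2 ^ v.length * op j) ≤ C := by
  have hi : 1 ≤ 2 ^ v.length * op i := Nat.mul_pos (by positivity) (op_prime i).pos
  have hj : 1 ≤ 2 ^ v.length * op j := Nat.mul_pos (by positivity) (op_prime j).pos
  obtain ⟨C, e0, hC⟩ := uniform_bound v.length (val v) (2 ^ v.length * op i)
    (2 ^ v.length * op j) (length_pos v hv) (val_lt v) hi hj (not_dvd _ i j h)
  refine ⟨C, e0, fun e he n => ?_⟩
  obtain ⟨l, h1, h2, h3⟩ := hC e he n
  rw [A_eq v hv]
  exact (Nat.sInf_le (show l ∈ {l : ℕ | 1 ≤ l ∧ F v.length (val v) (n + l *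
    (2 ^ e * (2 ^ v.length * op i) + 2 ^ v.length * op j)) ≠
    F v.length (val v) n} from ⟨h1, h3⟩)).trans h2

lemma seqMax_not_regular (v : List Bool) (hv : v ≠ []) : ¬ TwoRegular (seqMax v) := by
  apply not_regular _ (fun i => 2 ^ v.length * op i)
  · intro i B
    have hi : 1 ≤ 2 ^ v.length * op i := Nat.mul_pos (by positivity) (op_prime i).pos
    refine ⟨B * (2 ^ v.length * op i), fun e he => ?_⟩
    have h1 : B * (2 ^ v.length * op i) ≤ 2 ^ e := he.trans Nat.lt_two_pow_self.le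
    obtain ⟨n, h2, -⟩ := A_growth v hv (2 ^ v.length * op i) e B hi (Dvd.intro _ rfl) h1
    unfold seqMax
    rw [if_neg (by omega)]
    have := h2.trans (le_Amax v hv n _ (by omega))
    exact_mod_cast this
  · intro i j hij
    obtain ⟨C, e0, h⟩ := off_bound v hv i j hij
    refine ⟨C, e0, fun e he => ?_⟩
    unfold seqMax
    have hj : 1 ≤ 2 ^ v.length * op j := Nat.mul_pos (by positivity) (op_prime j).pos
    rw [if_neg (by omega)]
    refine ⟨by positivity, ?_⟩
    exact_mod_cast Amax_le v _ C (h e he)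

lemma seqZero_not_regular (v : List Bool) (hv : v ≠ []) (ht : true ∈ v) :
    ¬ TwoRegular (seqZero v) := by
  apply not_regular _ (fun i => 2 ^ v.length * op i)
  · intro i B
    have hi : 1 ≤ 2 ^ v.length * op i := Nat.mul_pos (by positivity) (op_prime i).pos
    refine ⟨B * (2 ^ v.length * op i), fun e he => ?_⟩
    have h1 : B * (2 ^ v.length * op i) ≤ 2 ^ e := he.trans Nat.lt_two_pow_self.le
    obtain ⟨n, h2, h3⟩ := A_growth v hv (2 ^ v.length * op i) e B hi (Dvd.intro _ rfl) h1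
    rw [h3 ht] at h2
    unfold seqZero
    rw [if_neg (by omega)]
    exact_mod_cast h2
  · intro i j hij
    obtain ⟨C, e0, h⟩ := off_bound v hv i j hij
    refine ⟨C, e0, fun e he => ?_⟩
    unfold seqZero
    have hj : 1 ≤ 2 ^ v.length * op j := Nat.mul_pos (by positivity) (op_prime j).pos
    rw [if_neg (by omega)]
    refine ⟨by positivity, ?_⟩
    exact_mod_cast h e he 0

/-! ### the regular case -/

lemma F_double (K d : ℕ) (hK : 1 ≤ K) (hd : 1 ≤ d) :
    F K 0 (2 ^ K * d) + F K 0 (2 ^ (K - 1) * d) = 1 := by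
  rw [F_step K 0 (2 ^ K * d)]
  have h1 : 2 ^ K * d / 2 = 2 ^ (K - 1) * d := by
    have : 2 ^ K * d = 2 * (2 ^ (K - 1) * d) := by
      rw [← mul_assoc, ← pow_succ']; congr 2; omega
    rw [this]; simp
  have h2 : chi K 0 (2 ^ K * d) = 1 := by
    unfold chi
    rw [if_pos]
    refine ⟨?_, by simp⟩
    have : 0 < 2 ^ K * d := Nat.mul_pos (by positivity) hd
    omega
  rw [h1, h2]
  have : ∀ x : ZMod 2, 1 + x + x = 1 := by decide
  exact this _

lemma seqZero_eq (v : List Bool) (hv : v ≠ []) (ht : true ∉ v) (d : ℕ) :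
    seqZero v d = (sInf {l : ℕ | 1 ≤ l ∧ l ≤ 2 ^ v.length ∧ F v.length 0 (l * d) ≠ 0} : ℕ) := by
  unfold seqZero
  split_ifs with h
  · subst h
    have : {l : ℕ | 1 ≤ l ∧ l ≤ 2 ^ v.length ∧ F v.length 0 (l * 0) ≠ 0} = ∅ := by
      ext l
      simp [F_zero]
    rw [this]
    simp
  · rw [A_eq v hv, val_zero v ht]
    simp only [zero_add, F_zero]
    have h1 : 1 ≤ d := by omega
    have hK := length_pos v hv
    have hne : {l : ℕ | 1 ≤ l ∧ l ≤ 2 ^ v.length ∧ F v.length 0 (l * d) ≠ 0}.Nonempty := by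
      have h2 := F_double v.length d hK h1
      by_cases h3 : F v.length 0 (2 ^ v.length * d) = 0
      · rw [h3, zero_add] at h2
        refine ⟨2 ^ (v.length - 1), Nat.one_le_two_pow,
          Nat.pow_le_pow_right (by norm_num) (by omega), ?_⟩
        rw [h2]; exact one_ne_zero
      · exact ⟨2 ^ v.length, Nat.one_le_two_pow, le_rfl, h3⟩
    congr 1
    apply le_antisymm
    · apply Nat.sInf_le
      have := Nat.sInf_mem hne
      exact ⟨this.1, this.2.2⟩
    · have h5 := Nat.sInf_mem hne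
      have h4 : {l : ℕ | 1 ≤ l ∧ F v.length 0 (l * d) ≠ 0}.Nonempty := ⟨_, h5.1, h5.2.2⟩
      apply Nat.sInf_le
      have h6 := Nat.sInf_mem h4
      refine ⟨h6.1, ?_, h6.2⟩
      have h7 : sInf {l : ℕ | 1 ≤ l ∧ F v.length 0 (l * d) ≠ 0} ≤
          sInf {l : ℕ | 1 ≤ l ∧ l ≤ 2 ^ v.length ∧ F v.length 0 (l * d) ≠ 0} :=
        Nat.sInf_le ⟨h5.1, h5.2.2⟩
      exact h7.trans h5.2.1

/-- the finite state -/
def stateOf (K : ℕ) (d : ℕ) (l c : Fin (2 ^ K + 1)) : ZMod 2 × Fin (2 ^ K) × Bool :=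
  (F K 0 (l * d + c), ⟨(l * d + c) % 2 ^ K, Nat.mod_lt _ (by positivity)⟩,
    decide ((l : ℕ) * d + c = 0))

lemma F_state (K e r' z z' : ℕ) (hr : r' < 2 ^ e) (h1 : F K 0 z = F K 0 z')
    (h2 : z % 2 ^ K = z' % 2 ^ K) (h3 : z = 0 ↔ z' = 0) :
    F K 0 (2 ^ e * z + r') = F K 0 (2 ^ e * z' + r') := by
  rw [F_split K 0 (2 ^ e * z + r') e, F_split K 0 (2 ^ e * z' + r') e,
    div_high z r' e e le_rfl hr, div_high z' r' e e le_rfl hr]
  simp only [Nat.sub_self, pow_zero, Nat.div_one]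
  rw [h1]
  congr 1
  apply sum_congr rfl
  intro p hp
  rw [mem_range] at hp
  rw [div_low _ _ _ _ hp.le, div_low _ _ _ _ hp.le]
  unfold chi
  have e1 : (2 ^ (e - p) * z + r' / 2 ^ p ≠ 0) ↔ (2 ^ (e - p) * z' + r' / 2 ^ p ≠ 0) := by
    rw [Ne, Ne, Nat.add_eq_zero_iff, Nat.add_eq_zero_iff, Nat.mul_eq_zero, Nat.mul_eq_zero, h3]
  have e2 : (2 ^ (e - p) * z + r' / 2 ^ p) % 2 ^ K = (2 ^ (e - p) * z' + r' / 2 ^ p) % 2 ^ K := by
    rw [Nat.add_mod, Nat.mul_mod, h2, ← Nat.mul_mod, ← Nat.add_mod]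
  rw [e2]
  simp only [e1]

lemma seqZero_regular (v : List Bool) (hv : v ≠ []) (ht : true ∉ v) :
    TwoRegular (seqZero v) := by
  unfold TwoRegular
  let S := Fin (2 ^ v.length + 1) → Fin (2 ^ v.length + 1) → ZMod 2 × Fin (2 ^ v.length) × Bool
  let σ : ℕ → S := fun d => stateOf v.length d
  let Φ : (S → ℤ) →ₗ[ℤ] (ℕ → ℤ) := LinearMap.funLeft ℤ ℤ σ
  have hle : Submodule.span ℤ {f : ℕ → ℤ | ∃ e r : ℕ, r < 2 ^ e ∧
      f = fun d => seqZero v (2 ^ e * d + r)} ≤ LinearMap.range Φ := by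
    rw [Submodule.span_le]
    rintro f ⟨e, r, hr, rfl⟩
    have hfac : Function.FactorsThrough (fun d => seqZero v (2 ^ e * d + r)) σ := by
      intro d d' hdd
      simp only
      rw [seqZero_eq v hv ht, seqZero_eq v hv ht]
      congr 2
      ext l
      simp only [Set.mem_ofPred_eq]
      have key : ∀ l, l ≤ 2 ^ v.length → F v.length 0 (l * (2 ^ e * d + r)) =
          F v.length 0 (l * (2 ^ e * d' + r)) := by
        intro l hl
        have hc : l * r / 2 ^ e ≤ 2 ^ v.length := by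
          apply Nat.div_le_of_le_mul
          rw [mul_comm (2 ^ e)]
          exact Nat.mul_le_mul hl hr.le
        have w : ∀ d, l * (2 ^ e * d + r) = 2 ^ e * (l * d + l * r / 2 ^ e) + l * r % 2 ^ e := by
          intro d
          have := Nat.div_add_mod (l * r) (2 ^ e)
          calc l * (2 ^ e * d + r) = 2 ^ e * (l * d) + l * r := by ring
            _ = 2 ^ e * (l * d) + (2 ^ e * (l * r / 2 ^ e) + l * r % 2 ^ e) := by rw [this]
            _ = _ := by ring
        rw [w d, w d']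
        have h1 := congrFun (congrFun hdd ⟨l, by omega⟩) ⟨l * r / 2 ^ e, by omega⟩
        simp only [σ, stateOf, Prod.mk.injEq, Fin.mk.injEq, decide_eq_decide] at h1
        exact F_state _ _ _ _ _ (Nat.mod_lt _ (by positivity)) h1.1 h1.2.1 h1.2.2
      constructor
      · rintro ⟨h1, h2, h3⟩
        exact ⟨h1, h2, by rw [← key l h2]; exact h3⟩
      · rintro ⟨h1, h2, h3⟩
        exact ⟨h1, h2, by rw [key l h2]; exact h3⟩
    obtain ⟨g, hg⟩ := (Function.factorsThrough_iff _).1 hfac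
    refine ⟨g, ?_⟩
    rw [hg]
    rfl
  have h2 : Submodule.map Φ (Submodule.comap Φ (Submodule.span ℤ {f : ℕ → ℤ | ∃ e r : ℕ,
      r < 2 ^ e ∧ f = fun d => seqZero v (2 ^ e * d + r)})) = Submodule.span ℤ {f : ℕ → ℤ |
      ∃ e r : ℕ, r < 2 ^ e ∧ f = fun d => seqZero v (2 ^ e * d + r)} := by
    rw [Submodule.map_comap_eq]
    exact inf_eq_right.2 hle
  rw [← h2]
  apply Submodule.FG.map
  have : Finite S := inferInstance
  exact IsNoetherian.noetherian _

end Q280.Pat
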