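import Pool.Agent.Q280.Pat.Growth

set_option autoImplicit false

/-!
# Regular sequences
-/

open Finset

namespace Q280.Pat

/-- `2`-regularity of an integer sequence -/
def TwoRegular (a : ℕ → ℤ) : Prop :=
  (Submodule.span ℤ {f : ℕ → ℤ | ∃ e r : ℕ, r < 2 ^ e ∧ f = fun d => a (2 ^ e * d + r)}).FG

/-- a criterion for non-regularity -/
lemma not_regular (a : ℕ → ℤ) (D : ℕ → ℕ)
    (hdiag : ∀ i : ℕ, ∀ B : ℕ, ∃ e0, ∀ e, e0 ≤ e → (B : ℤ) ≤ a (2 ^ e * D i + D i))
    (hoff : ∀ i j : ℕ, i ≠ j → ∃ C : ℕ, ∃ e0, ∀ e, e0 ≤ e →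
      0 ≤ a (2 ^ e * D i + D j) ∧ a (2 ^ e * D i + D j) ≤ (C : ℤ)) :
    ¬ TwoRegular a := by
  classical
  intro hreg
  unfold TwoRegular at hreg
  rw [Submodule.fg_iff_exists_fin_generating_family] at hreg
  obtain ⟨ρ, g, hg⟩ := hreg
  choose C e1 h1 using hoff
  -- total off-diagonal bound
  obtain ⟨B, hB⟩ : ∃ B : ℕ, B = (∑ i : Fin (ρ + 1), ∑ j : Fin (ρ + 1),
      if h : (i : ℕ) ≠ j then C i j h else 0) + 1 := ⟨_, rfl⟩
  choose e2 h2 using fun i => hdiag i B
  obtain ⟨e, he⟩ : ∃ e : ℕ, e = (∑ i : Fin (ρ + 1), ∑ j : Fin (ρ + 1),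
      if h : (i : ℕ) ≠ j then e1 i j h else 0) + (∑ i : Fin (ρ + 1), e2 i) +
      (∑ i : Fin (ρ + 1), D i) := ⟨_, rfl⟩
  have he1 : ∀ (i j : Fin (ρ + 1)) (h : (i : ℕ) ≠ j), e1 i j h ≤ e := by
    intro i j h
    have s1 : e1 i j h ≤ ∑ j : Fin (ρ + 1), if h : (i : ℕ) ≠ j then e1 i j h else 0 := by
      have := Finset.single_le_sum (f := fun j : Fin (ρ + 1) =>
        if h : (i : ℕ) ≠ j then e1 i j h else 0) (fun _ _ => Nat.zero_le _) (Finset.mem_univ j)
      simpa [h] using this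
    have s2 : (∑ j : Fin (ρ + 1), if h : (i : ℕ) ≠ j then e1 i j h else 0) ≤
        ∑ i : Fin (ρ + 1), ∑ j : Fin (ρ + 1), if h : (i : ℕ) ≠ j then e1 i j h else 0 :=
      Finset.single_le_sum (f := fun i : Fin (ρ + 1) =>
        ∑ j : Fin (ρ + 1), if h : (i : ℕ) ≠ j then e1 i j h else 0)
        (fun _ _ => Nat.zero_le _) (Finset.mem_univ i)
    omega
  have he2 : ∀ i : Fin (ρ + 1), e2 i ≤ e := by
    intro i
    have := Finset.single_le_sum (f := fun i : Fin (ρ + 1) => e2 i)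
      (fun _ _ => Nat.zero_le _) (Finset.mem_univ i)
    omega
  have he3 : ∀ i : Fin (ρ + 1), D i < 2 ^ e := by
    intro i
    have := Finset.single_le_sum (f := fun i : Fin (ρ + 1) => D i)
      (fun _ _ => Nat.zero_le _) (Finset.mem_univ i)
    have h3 : e < 2 ^ e := Nat.lt_two_pow_self
    omega
  -- coordinates
  have hmem : ∀ j : Fin (ρ + 1), ∃ c : Fin ρ → ℤ,
      ∑ k, c k • g k = fun d => a (2 ^ e * d + D j) := by
    intro j
    rw [← Submodule.mem_span_range_iff_exists_fun ℤ, hg]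
    exact Submodule.subset_span ⟨e, D j, he3 j, rfl⟩
  choose c hc using hmem
  let G : Matrix (Fin (ρ + 1)) (Fin ρ) ℝ := fun i k => (g k (D i) : ℝ)
  let Q : Matrix (Fin ρ) (Fin (ρ + 1)) ℝ := fun k j => (c j k : ℝ)
  let M : Matrix (Fin (ρ + 1)) (Fin (ρ + 1)) ℝ := fun i j => (a (2 ^ e * D i + D j) : ℝ)
  have hM : M = G * Q := by
    ext i j
    rw [Matrix.mul_apply]
    have h3 := congrFun (hc j) (D i)
    rw [Finset.sum_apply] at h3
    simp only [M, G, Q]
    rw [← h3]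
    push_cast
    apply Finset.sum_congr rfl
    intro k _
    simp [mul_comm]
  have hdet : M.det ≠ 0 := by
    apply det_ne_zero_of_sum_row_lt_diag
    intro i
    have hdiag' : (B : ℝ) ≤ M i i := by
      simp only [M]
      have := h2 i e (he2 i)
      exact_mod_cast this
    have hoff' : ∀ j ∈ Finset.univ.erase i, ‖M i j‖ ≤
        ((if h : (i : ℕ) ≠ j then C i j h else 0 : ℕ) : ℝ) := by
      intro j hj
      have hne : (i : ℕ) ≠ j := fun h => (Finset.ne_of_mem_erase hj) (Fin.ext h.symm)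
      rw [dif_pos hne]
      have h4 := h1 i j hne e (he1 i j hne)
      simp only [M]
      rw [Real.norm_of_nonneg (by exact_mod_cast h4.1)]
      exact_mod_cast h4.2
    have hsum : ∑ j ∈ Finset.univ.erase i, ‖M i j‖ ≤ ((B - 1 : ℕ) : ℝ) := by
      refine (Finset.sum_le_sum hoff').trans ?_
      rw [← Nat.cast_sum, Nat.cast_le, hB, Nat.add_sub_cancel]
      refine (Finset.sum_le_sum_of_subset (Finset.erase_subset _ _)).trans ?_
      exact Finset.single_le_sum (f := fun i : Fin (ρ + 1) =>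
        ∑ j : Fin (ρ + 1), if h : (i : ℕ) ≠ j then C i j h else 0)
        (fun _ _ => Nat.zero_le _) (Finset.mem_univ i)
    have hB1 : ((B - 1 : ℕ) : ℝ) < (B : ℝ) := by
      rw [Nat.cast_lt]; omega
    rw [Real.norm_of_nonneg (le_trans (Nat.cast_nonneg _) hdiag')]
    linarith
  have hrank : M.rank = ρ + 1 := by
    have := Matrix.rank_of_isUnit M ((Matrix.isUnit_iff_isUnit_det M).2 (isUnit_iff_ne_zero.2 hdet))
    simpa using this
  have hrank2 : M.rank ≤ ρ := by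
    rw [hM]
    refine (Matrix.rank_mul_le_left G Q).trans ?_
    simpa using Matrix.rank_le_width G
  omega

end Q280.Pat
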