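import Pool.Agent.Q280.Pat.Gen

set_option autoImplicit false

/-!
# Prescribing the parities along odd multiples
-/

open Finset

namespace Q280.Pat

lemma surj {K : ℕ} {φ G : ℕ → ZMod 2} (h : Win K φ G) (hK : 1 ≤ K) (hv : Viol K G)
    (l : ℕ) (τ : ℕ → ZMod 2) : ∃ d, ∀ j, j ≤ l → j % 2 = 1 → G (2 ^ K * (j * d)) = τ j := by
  classical
  let J : Finset ℕ := (Finset.range (l + 1)).filter (fun j => j % 2 = 1)
  have hJle : ∀ j ∈ J, j ≤ l := by
    intro j hj
    have := (Finset.mem_filter.1 hj).1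
    rw [Finset.mem_range] at this
    omega
  let vec : ℕ → (J → ZMod 2) := fun d j => G (2 ^ K * ((j : ℕ) * d))
  have hadd : ∀ d1 d2, ∃ d, vec d = vec d1 + vec d2 := by
    intro d1 d2
    refine ⟨d1 + 2 ^ (2 ^ K * (l * d1)) * d2, ?_⟩
    ext j
    simp only [vec, Pi.add_apply]
    have e1 : 2 ^ K * ((j : ℕ) * (d1 + 2 ^ (2 ^ K * (l * d1)) * d2)) =
        2 ^ (2 ^ K * (l * d1)) * (2 ^ K * ((j : ℕ) * d2)) + 2 ^ K * ((j : ℕ) * d1) := by ring
    have e2 : 2 ^ K * ((j : ℕ) * d1) < 2 ^ (2 ^ K * (l * d1)) := by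
      refine lt_of_le_of_lt ?_ Nat.lt_two_pow_self
      exact Nat.mul_le_mul_left _ (Nat.mul_le_mul_right _ (hJle _ j.2))
    rw [e1, h.block _ _ _ e2]
    ring
  have hzero : vec 0 = 0 := by
    ext j
    simp only [vec, mul_zero, h.G_zero, Pi.zero_apply]
  let W : Submodule (ZMod 2) (J → ZMod 2) :=
    { carrier := Set.range vec
      add_mem' := by
        rintro _ _ ⟨d1, rfl⟩ ⟨d2, rfl⟩
        obtain ⟨d, hd⟩ := hadd d1 d2
        exact ⟨d, hd⟩
      zero_mem' := ⟨0, hzero⟩
      smul_mem' := by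
        rintro c _ ⟨d, rfl⟩
        have hc : c = 0 ∨ c = 1 := by revert c; decide
        rcases hc with rfl | rfl
        · exact ⟨0, by rw [hzero, zero_smul]⟩
        · exact ⟨d, by rw [one_smul]⟩ }
  have hW : W = ⊤ := by
    by_contra hne
    obtain ⟨f, hf, hle⟩ := Submodule.exists_le_ker_of_lt_top W (lt_top_iff_ne_top.2 hne)
    let c : ℕ → ZMod 2 := fun j => if hj : j ∈ J then f (Pi.single ⟨j, hj⟩ 1) else 0
    have hf' : ∀ x : J → ZMod 2, f x = ∑ j : J, x j * c j := by
      intro x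
      rw [LinearMap.pi_apply_eq_sum_univ f x]
      apply Finset.sum_congr rfl
      intro j _
      simp only [c, j.2, dif_pos, smul_eq_mul]
      congr 2
      ext i
      simp [Pi.single_apply, eq_comm]
    let J' : Finset ℕ := J.filter (fun j => c j ≠ 0)
    have hJ'ne : J'.Nonempty := by
      by_contra hemp
      rw [Finset.not_nonempty_iff_eq_empty] at hemp
      apply hf
      apply LinearMap.ext
      intro x
      rw [hf' x, LinearMap.zero_apply]
      apply Finset.sum_eq_zero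
      intro j _
      have : c j = 0 := by
        by_contra hc
        have : (j : ℕ) ∈ J' := Finset.mem_filter.2 ⟨j.2, hc⟩
        rw [hemp] at this
        simp at this
      rw [this, mul_zero]
    obtain ⟨d, hd⟩ := indep h hK hv J' hJ'ne (by
      intro j hj
      exact (Finset.mem_filter.1 (Finset.mem_filter.1 hj).1).2)
    apply hd
    have h0 : f (vec d) = 0 := by
      have : vec d ∈ W := ⟨d, rfl⟩
      exact hle this
    rw [hf' (vec d)] at h0
    rw [← h0, Finset.sum_filter, ← Finset.sum_coe_sort J]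
    apply Finset.sum_congr rfl
    intro j _
    simp only [vec]
    have hc : ∀ x y : ZMod 2, (if y ≠ 0 then x else 0) = x * y := by decide
    exact hc _ _
  have hmem : (fun j : J => τ j) ∈ W := by rw [hW]; exact Submodule.mem_top
  obtain ⟨d, hd⟩ := hmem
  refine ⟨d, ?_⟩
  intro j hj hj2
  have hjJ : j ∈ J := Finset.mem_filter.2 ⟨Finset.mem_range.2 (by omega), hj2⟩
  exact congrFun hd ⟨j, hjJ⟩

end Q280.Pat
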