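import Pool.Agent.Q280.Pat.Bound

set_option autoImplicit false

/-!
# A bound which does not depend on the shift
-/

open Finset

namespace Q280.Pat

lemma base_point (n d r M L : ℕ) (hdM : d % M = r) (hM : 2 * (L * r) < M) :
    ∃ l0, l0 ≤ L ∧ (n + l0 * d) % M + L * r < M := by
  by_cases h : n % M + L * r < M
  · exact ⟨0, Nat.zero_le _, by simpa using h⟩
  · refine ⟨L, le_rfl, ?_⟩
    have hM0 : 0 < M := by omega
    have h1 : n % M < M := Nat.mod_lt _ hM0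
    have h2 : (n + L * d) % M = n % M + L * r - M := by
      have e1 : (n + L * d) % M = (n % M + L * r) % M := by
        rw [Nat.add_mod, Nat.mul_mod, hdM]
        conv_rhs => rw [Nat.add_mod, Nat.mod_mod]
        congr 2
        rw [Nat.mul_mod L r]
        congr 2
        rw [← hdM, Nat.mod_mod]
      rw [e1, Nat.mod_eq_sub_mod (by omega), Nat.mod_eq_of_lt (by omega)]
    omega

/-- two joint jumps are impossible -/
lemma no_two_jumps (D r P y0 X0 l1 l2 κ1 κ2 μ T : ℤ) (hD : 0 < D) (hr : 0 < r)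
    (hP : 2 * (r * D) ≤ P)
    (h1 : y0 + (l1 - 1) * r < κ1 * P) (h1' : κ1 * P ≤ y0 + l1 * r)
    (h2 : y0 + (l2 - 1) * r < κ2 * P) (h2' : κ2 * P ≤ y0 + l2 * r)
    (h3 : X0 + (l1 - 1) * D < μ * P) (h3' : μ * P ≤ X0 + l1 * D)
    (h4 : X0 + (l2 - 1) * D < (μ + T) * P) (h4' : (μ + T) * P ≤ X0 + l2 * D) :
    D * (κ2 - κ1) = r * T := by
  have a1 := mul_lt_mul_of_pos_left h1 hD
  have a1' := mul_le_mul_of_nonneg_left h1' hD.le
  have a2 := mul_lt_mul_of_pos_left h2 hD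
  have a2' := mul_le_mul_of_nonneg_left h2' hD.le
  have a3 := mul_lt_mul_of_pos_left h3 hr
  have a3' := mul_le_mul_of_nonneg_left h3' hr.le
  have a4 := mul_lt_mul_of_pos_left h4 hr
  have a4' := mul_le_mul_of_nonneg_left h4' hr.le
  set δ := D * (κ2 - κ1) - r * T with hδ
  have b1 : P * δ < 2 * (r * D) := by
    rw [hδ]; ring_nf at a1 a1' a2 a2' a3 a3' a4 a4' ⊢; linarith
  have b2 : -(2 * (r * D)) < P * δ := by
    rw [hδ]; ring_nf at a1 a1' a2 a2' a3 a3' a4 a4' ⊢; linarith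
  have hPpos : 0 < P := by
    have : 0 < r * D := mul_pos hr hD
    linarith
  have b3 : δ < 1 := by
    by_contra hc
    push Not at hc
    have := mul_le_mul_of_nonneg_left hc hPpos.le
    linarith
  have b4 : -1 < δ := by
    by_contra hc
    push Not at hc
    have := mul_le_mul_of_nonneg_left hc hPpos.le
    linarith
  have : δ = 0 := by omega
  linarith

lemma uniform_bound (K V D r : ℕ) (hK : 1 ≤ K) (hV : V < 2 ^ K) (hD : 1 ≤ D) (hr : 1 ≤ r)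
    (hDr : ∀ t, ¬ D ∣ r * 2 ^ t) :
    ∃ C e0, ∀ e, e0 ≤ e → ∀ n, ∃ l, 1 ≤ l ∧ l ≤ C ∧
      F K V (n + l * (2 ^ e * D + r)) ≠ F K V n := by
  obtain ⟨a, c', hc', hDa⟩ : ∃ a c', c' % 2 = 1 ∧ D = 2 ^ a * c' := by
    obtain ⟨a, c', h1, h2⟩ := Nat.exists_eq_two_pow_mul_odd (show D ≠ 0 by omega)
    exact ⟨a, c', Nat.odd_iff.1 h1, h2⟩
  obtain ⟨t, m0, ht, hm0, -, -, hviol⟩ := violation K V a hK hV
  obtain ⟨b', hb'⟩ : ∃ b', 2 * (r * D) ≤ 2 ^ b' := ⟨_, Nat.lt_two_pow_self.le⟩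
  have hT0 : 1 ≤ 2 ^ t := Nat.one_le_two_pow
  have hDb : D ≤ 2 ^ b' := by
    have : D ≤ r * D := Nat.le_mul_of_pos_left _ hr
    omega
  obtain ⟨b, hb⟩ : ∃ b, b = b' + K - 1 := ⟨_, rfl⟩
  obtain ⟨L, hL⟩ : ∃ L, L = (3 * 2 ^ t + 1) * 2 ^ b' + 2 ^ b := ⟨_, rfl⟩
  have hb1 : 1 ≤ 2 ^ b := Nat.one_le_two_pow
  have hL1 : 1 ≤ L := by omega
  refine ⟨2 * L, b' + K + 2 * (L * r), ?_⟩
  intro e he n
  obtain ⟨M, hM⟩ : ∃ M, M = 2 ^ (e - K + 1) := ⟨_, rfl⟩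
  have hMbig : 2 * (L * r) < M := by
    rw [hM]
    refine lt_of_lt_of_le (Nat.lt_two_pow_self (n := 2 * (L * r))) ?_
    exact Nat.pow_le_pow_right (by norm_num) (by omega)
  have hMe : 2 ^ e = M * 2 ^ (K - 1) := by
    rw [hM, ← pow_add]; congr 1; omega
  have hrM : r < M := by
    have : r ≤ L * r := Nat.le_mul_of_pos_left _ hL1
    omega
  have hM0 : 0 < M := by omega
  have hdM : (2 ^ e * D + r) % M = r := by
    rw [hMe, mul_assoc, Nat.mul_add_mod, Nat.mod_eq_of_lt hrM]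
  obtain ⟨l0, hl0, hbase⟩ := base_point n (2 ^ e * D + r) r M L hdM hMbig
  obtain ⟨N, hN⟩ : ∃ N, N = n + l0 * (2 ^ e * D + r) := ⟨_, rfl⟩
  rw [← hN] at hbase
  obtain ⟨X0, hX0⟩ : ∃ X0, X0 = N / 2 ^ e := ⟨_, rfl⟩
  obtain ⟨y0, hy0⟩ : ∃ y0, y0 = N % 2 ^ e := ⟨_, rfl⟩
  have hNXy : N = 2 ^ e * X0 + y0 := by rw [hX0, hy0]; exact (Nat.div_add_mod _ _).symm
  have hy0lt : y0 < 2 ^ e := by rw [hy0]; exact Nat.mod_lt _ (by positivity)
  have hy0M : y0 % M = N % M := by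
    rw [hy0]; exact Nat.mod_mod_of_dvd _ ⟨2 ^ (K - 1), hMe⟩
  have hblock : ∀ z, z ≤ L * r → (y0 + z) / M = y0 / M := by
    intro z hz
    have h1 : y0 + z = M * (y0 / M) + (y0 % M + z) := by
      have := Nat.div_add_mod y0 M
      omega
    have h2 : y0 % M + z < M := by rw [hy0M]; omega
    rw [h1, Nat.mul_add_div hM0, Nat.div_eq_of_lt h2, add_zero]
  have hlt : ∀ z, z ≤ L * r → y0 + z < 2 ^ e := by
    intro z hz
    have h1 := hblock z hz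
    have h2 : y0 / M < 2 ^ (K - 1) := by
      rw [Nat.div_lt_iff_lt_mul hM0, mul_comm, ← hMe]; exact hy0lt
    rw [← h1, Nat.div_lt_iff_lt_mul hM0, mul_comm, ← hMe] at h2
    exact h2
  -- the two events
  obtain ⟨μ, h1, h2, h3⟩ := exists_target (X0 / 2 ^ b') (2 ^ t) m0 hm0
  have hQ : X0 / 2 ^ b' < μ ∧ X0 / 2 ^ b' < μ + 2 ^ t ∧ μ - X0 / 2 ^ b' ≤ 3 * 2 ^ t + 1 ∧
      μ + 2 ^ t - X0 / 2 ^ b' ≤ 3 * 2 ^ t + 1 ∧ 1 + 2 ^ t ≤ μ := by
    generalize X0 / 2 ^ b' = Q at h1 h2 ⊢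
    omega
  obtain ⟨q1, q2, q3, q4, q5⟩ := hQ
  obtain ⟨l1, f1, f2, f3, f4⟩ := passage X0 D b' μ hD hDb q1
  obtain ⟨l2, g1, g2, g3, g4⟩ := passage X0 D b' (μ + 2 ^ t) hD hDb q2
  have f2' : l1 ≤ (3 * 2 ^ t + 1) * 2 ^ b' := f2.trans (Nat.mul_le_mul_right _ q3)
  have g2' : l2 ≤ (3 * 2 ^ t + 1) * 2 ^ b' := g2.trans (Nat.mul_le_mul_right _ q4)
  have hP : 0 < 2 ^ b' := by positivity
  have key : ∃ l μ', 1 ≤ l ∧ l ≤ (3 * 2 ^ t + 1) * 2 ^ b' ∧ 1 + 2 ^ t ≤ μ' ∧ μ' % 2 ^ t = m0 ∧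
      (X0 + l * D) / 2 ^ b' = μ' ∧ (X0 + (l - 1) * D) / 2 ^ b' = μ' - 1 ∧
      (y0 + l * r) / 2 ^ b' = (y0 + (l - 1) * r) / 2 ^ b' := by
    by_cases j1 : (y0 + l1 * r) / 2 ^ b' = (y0 + (l1 - 1) * r) / 2 ^ b'
    · exact ⟨l1, μ, f1, f2', q5, h3, f3, f4, j1⟩
    by_cases j2 : (y0 + l2 * r) / 2 ^ b' = (y0 + (l2 - 1) * r) / 2 ^ b'
    · exact ⟨l2, μ + 2 ^ t, g1, g2', by omega, by rw [Nat.add_mod_right]; exact h3, g3, g4, j2⟩
    exfalso
    have jump : ∀ l, 1 ≤ l → ¬ (y0 + l * r) / 2 ^ b' = (y0 + (l - 1) * r) / 2 ^ b' →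
        y0 + (l - 1) * r < (y0 + l * r) / 2 ^ b' * 2 ^ b' ∧
        (y0 + l * r) / 2 ^ b' * 2 ^ b' ≤ y0 + l * r := by
      intro l hl hj
      refine ⟨?_, Nat.div_mul_le_self _ _⟩
      have hle : (y0 + (l - 1) * r) / 2 ^ b' ≤ (y0 + l * r) / 2 ^ b' := by
        apply Nat.div_le_div_right
        have : (l - 1) * r ≤ l * r := Nat.mul_le_mul_right _ (by omega)
        omega
      have hlt' : (y0 + (l - 1) * r) / 2 ^ b' < (y0 + l * r) / 2 ^ b' :=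
        lt_of_le_of_ne hle (fun hc => hj hc.symm)
      exact (Nat.div_lt_iff_lt_mul hP).1 hlt'
    obtain ⟨u1, u1'⟩ := jump l1 f1 j1
    obtain ⟨u2, u2'⟩ := jump l2 g1 j2
    generalize (y0 + l1 * r) / 2 ^ b' = κ1 at u1 u1'
    generalize (y0 + l2 * r) / 2 ^ b' = κ2 at u2 u2'
    have v1 : X0 + (l1 - 1) * D < μ * 2 ^ b' := by
      rw [← Nat.div_lt_iff_lt_mul hP, f4]; omega
    have v1' : μ * 2 ^ b' ≤ X0 + l1 * D := by
      rw [← Nat.le_div_iff_mul_le hP, f3]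
    have v2 : X0 + (l2 - 1) * D < (μ + 2 ^ t) * 2 ^ b' := by
      rw [← Nat.div_lt_iff_lt_mul hP, g4]; omega
    have v2' : (μ + 2 ^ t) * 2 ^ b' ≤ X0 + l2 * D := by
      rw [← Nat.le_div_iff_mul_le hP, g3]
    obtain ⟨l1', rfl⟩ : ∃ l1', l1 = l1' + 1 := ⟨l1 - 1, by omega⟩
    obtain ⟨l2', rfl⟩ : ∃ l2', l2 = l2' + 1 := ⟨l2 - 1, by omega⟩
    simp only [Nat.add_sub_cancel] at u1 u2 v1 v2
    have := no_two_jumps (D : ℤ) (r : ℤ) ((2 ^ b' : ℕ) : ℤ) (y0 : ℤ) (X0 : ℤ) ((l1' : ℤ) + 1)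
      ((l2' : ℤ) + 1) (κ1 : ℤ) (κ2 : ℤ) (μ : ℤ) ((2 ^ t : ℕ) : ℤ) (by exact_mod_cast hD)
      (by exact_mod_cast hr) (by exact_mod_cast hb')
      (by simp only [add_sub_cancel_right]; exact_mod_cast u1) (by exact_mod_cast u1')
      (by simp only [add_sub_cancel_right]; exact_mod_cast u2) (by exact_mod_cast u2')
      (by simp only [add_sub_cancel_right]; exact_mod_cast v1) (by exact_mod_cast v1')
      (by simp only [add_sub_cancel_right]; exact_mod_cast v2) (by exact_mod_cast v2')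
    apply hDr t
    have h5 : (D : ℤ) ∣ ((r * 2 ^ t : ℕ) : ℤ) := ⟨(κ2 : ℤ) - κ1, by push_cast at this ⊢; rw [this]⟩
    exact_mod_cast h5
  obtain ⟨l, μ', k1, k2, k3, k4, k5, k6, k7⟩ := key
  obtain ⟨l', rfl⟩ : ∃ l', l = l' + 1 := ⟨l - 1, by omega⟩
  simp only [Nat.add_sub_cancel] at k6 k7
  obtain ⟨m, rfl⟩ : ∃ m, μ' = m + 1 := ⟨μ' - 1, by omega⟩
  simp only [Nat.add_sub_cancel] at k6
  have hlr : ∀ z, z ≤ L → z * r ≤ L * r := fun z hz => Nat.mul_le_mul_right _ hz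
  have w1 : (y0 + l' * r + r + 2 ^ (b' + K - 1) * r) / 2 ^ (e - K + 1) =
      (y0 + l' * r) / 2 ^ (e - K + 1) := by
    rw [← hM, ← hb]
    have s1 : y0 + l' * r + r + 2 ^ b * r = y0 + (l' + 1 + 2 ^ b) * r := by ring
    rw [s1, hblock _ (hlr _ (by omega)), hblock _ (hlr _ (by omega))]
  have w2 : (y0 + l' * r + r) / 2 ^ b' = (y0 + l' * r) / 2 ^ b' := by
    have s1 : y0 + l' * r + r = y0 + (l' + 1) * r := by ring
    rw [s1]; exact k7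
  have w3 : (X0 + l' * D + D) / 2 ^ b' = m + 1 := by
    have s1 : X0 + l' * D + D = X0 + (l' + 1) * D := by ring
    rw [s1]; exact k5
  have w4 : y0 + l' * r < 2 ^ e := hlt _ (hlr _ (by omega))
  have key := four_reduce K V b' e D r (X0 + l' * D) (y0 + l' * r) m hK (by omega) w1 w2 k6 w3 w4
    (by omega)
  have e2 : 2 ^ (K - 1) * D = 2 ^ (K - 1 + a) * c' := by rw [hDa, pow_add]; ring
  rw [e2, hviol c' hc' m (by omega) k4] at key
  have p1 : 2 ^ e * (X0 + l' * D + D) + (y0 + l' * r + r) =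
      n + (l0 + (l' + 1)) * (2 ^ e * D + r) := by
    have : n + (l0 + (l' + 1)) * (2 ^ e * D + r) = N + (l' + 1) * (2 ^ e * D + r) := by
      rw [hN]; ring
    rw [this, hNXy]; ring
  have p2 : 2 ^ e * (X0 + l' * D) + (y0 + l' * r) =
      n + (l0 + l') * (2 ^ e * D + r) := by
    have : n + (l0 + l') * (2 ^ e * D + r) = N + l' * (2 ^ e * D + r) := by
      rw [hN]; ring
    rw [this, hNXy]; ring
  have p3 : 2 ^ e * (X0 + l' * D + D + 2 ^ (b' + K - 1) * D) +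
      (y0 + l' * r + r + 2 ^ (b' + K - 1) * r) =
      n + (l0 + (l' + 1) + 2 ^ b) * (2 ^ e * D + r) := by
    have : n + (l0 + (l' + 1) + 2 ^ b) * (2 ^ e * D + r) =
        N + (l' + 1 + 2 ^ b) * (2 ^ e * D + r) := by
      rw [hN]; ring
    rw [this, hNXy, ← hb]; ring
  have p4 : 2 ^ e * (X0 + l' * D + 2 ^ (b' + K - 1) * D) +
      (y0 + l' * r + 2 ^ (b' + K - 1) * r) =
      n + (l0 + l' + 2 ^ b) * (2 ^ e * D + r) := by
    have : n + (l0 + l' + 2 ^ b) * (2 ^ e * D + r) =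
        N + (l' + 2 ^ b) * (2 ^ e * D + r) := by
      rw [hN]; ring
    rw [this, hNXy, ← hb]; ring
  rw [p1, p2, p3, p4] at key
  rcases four_one _ _ _ _ (F K V n) key with h | h | h | h
  · exact ⟨_, by omega, by omega, h⟩
  · refine ⟨_, ?_, ?_, h⟩
    · by_contra hc
      have : l0 + l' = 0 := by omega
      rw [this] at h
      simp at h
    · omega
  · exact ⟨_, by omega, by omega, h⟩
  · have : 1 ≤ 2 ^ b := Nat.one_le_two_pow
    exact ⟨_, by omega, by omega, h⟩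

end Q280.Pat
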