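import Pool.Agent.Q280.Pat.Inst
import Pool.Agent.Q280.Pat.Main

set_option autoImplicit false

/-!
# The set of lengths from the origin
-/

open Finset

namespace Q280.Pat

lemma ne_zero_iff (x : ZMod 2) : x ≠ 0 ↔ x = 1 := by revert x; decide

lemma A_char (v : List Bool) (hv : v ≠ []) (d l : ℕ) (hd : 1 ≤ d) :
    A v 0 d = l ↔ (1 ≤ l ∧ F v.length (val v) (l * d) = 1 ∧
      ∀ i, 1 ≤ i → i < l → F v.length (val v) (i * d) = 0) := by
  rw [A_eq v hv]
  have hne := A_nonempty v hv 0 d hd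
  simp only [zero_add, F_zero] at hne ⊢
  constructor
  · rintro rfl
    have h1 := Nat.sInf_mem hne
    refine ⟨h1.1, (ne_zero_iff _).1 h1.2, ?_⟩
    intro i hi hil
    by_contra hc
    exact Nat.notMem_of_lt_sInf hil ⟨hi, hc⟩
  · rintro ⟨h1, h2, h3⟩
    apply le_antisymm
    · exact Nat.sInf_le ⟨h1, by rw [h2]; exact one_ne_zero⟩
    · by_contra hc
      push Not at hc
      have h4 := Nat.sInf_mem hne
      exact h4.2 (h3 _ h4.1 hc)

lemma F_half (K V i d : ℕ) (hi : i % 2 = 0) :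
    F K V (i * d) = chi K V (i * d) + F K V (i / 2 * d) := by
  rw [F_step]
  congr 2
  obtain ⟨q, rfl⟩ : ∃ q, i = 2 * q := ⟨i / 2, by omega⟩
  have : 2 * q / 2 = q := by omega
  rw [this, mul_assoc]
  omega

lemma odd_unique (x y a b : ℕ) (ha : a % 2 = 1) (hb : b % 2 = 1) (h : 2 ^ x * a = 2 ^ y * b) :
    x = y ∧ a = b := by
  have key : ∀ x y a b : ℕ, a % 2 = 1 → b % 2 = 1 → 2 ^ x * a = 2 ^ y * b → x ≤ y := by
    intro x y a b ha hb h
    by_contra hc
    push Not at hc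
    have e1 : 2 ^ x = 2 ^ y * (2 * 2 ^ (x - y - 1)) := by
      rw [← pow_succ', ← pow_add]; congr 1; omega
    rw [e1, mul_assoc] at h
    have h2 := Nat.eq_of_mul_eq_mul_left (show 0 < 2 ^ y by positivity) h
    rw [mul_assoc] at h2
    omega
  have h1 := key x y a b ha hb h
  have h2 := key y x b a hb ha h.symm
  have h3 : x = y := le_antisymm h1 h2
  subst h3
  exact ⟨rfl, Nat.eq_of_mul_eq_mul_left (by positivity) h⟩

lemma two_adic (n : ℕ) (hn : n ≠ 0) : ∃ a b, b % 2 = 1 ∧ n = 2 ^ a * b := by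
  obtain ⟨a, c', h1, h2⟩ := Nat.exists_eq_two_pow_mul_odd hn
  exact ⟨a, c', Nat.odd_iff.1 h1, h2⟩

/-- residues `2 ^ w * U` -/
lemma mod_iff (K w U a b : ℕ) (hw : w < K) (hU : U % 2 = 1) (hUK : U < 2 ^ (K - w))
    (hb : b % 2 = 1) :
    (2 ^ a * b) % 2 ^ K = 2 ^ w * U ↔ a = w ∧ b % 2 ^ (K - w) = U := by
  have hK : 2 ^ K = 2 ^ w * 2 ^ (K - w) := by rw [← pow_add]; congr 1; omega
  constructor
  · intro h
    have h1 := Nat.div_add_mod (2 ^ a * b) (2 ^ K)
    rw [h] at h1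
    generalize (2 ^ a * b) / 2 ^ K = q at h1
    have h2 : 2 ^ a * b = 2 ^ w * (2 ^ (K - w) * q + U) := by rw [← h1, hK]; ring
    have h3 : (2 ^ (K - w) * q + U) % 2 = 1 := by
      have : 2 ^ (K - w) = 2 * 2 ^ (K - w - 1) := by rw [← pow_succ']; congr 1; omega
      rw [this, mul_assoc]; omega
    obtain ⟨h4, h5⟩ := odd_unique _ _ _ _ hb h3 h2
    refine ⟨h4, ?_⟩
    rw [h5, Nat.mul_add_mod, Nat.mod_eq_of_lt hUK]
  · rintro ⟨rfl, h⟩
    rw [hK, Nat.mul_mod_mul_left, h]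

section pos

variable {K w U : ℕ}

lemma upper_pos (hw : w < K) (hU : U % 2 = 1) (hUK : U < 2 ^ (K - w)) (d l : ℕ) (hd : 1 ≤ d)
    (hl : 1 ≤ l) (h1 : F K (2 ^ w * U) (l * d) = 1)
    (h2 : ∀ i, 1 ≤ i → i < l → F K (2 ^ w * U) (i * d) = 0) (hle : l % 2 = 0) :
    ∃ c o, 1 ≤ c ∧ c ≤ w ∧ o % 2 = 1 ∧ o < 2 ^ (K - w) ∧ l = 2 ^ c * o := by
  obtain ⟨c, o, ho, rfl⟩ := two_adic l (by omega)
  obtain ⟨a, d', hd', rfl⟩ := two_adic d (by omega)
  have hc : 1 ≤ c := by
    by_contra hcon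
    have : c = 0 := by omega
    subst this
    rw [pow_zero, one_mul] at hle
    omega
  have hc2 : 2 ^ c = 2 * 2 ^ (c - 1) := by rw [← pow_succ']; congr 1; omega
  have hpc : 0 < 2 ^ (c - 1) := by positivity
  -- even multiples which hit the residue
  have hit : ∀ i, 1 ≤ i → i % 2 = 1 → 2 ^ c * i < 2 ^ c * o →
      chi K (2 ^ w * U) (2 ^ c * i * (2 ^ a * d')) = 0 := by
    intro i hi1 hi2 hi3
    have e1 := F_half K (2 ^ w * U) (2 ^ c * i) (2 ^ a * d') (by rw [hc2, mul_assoc]; omega)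
    have e2 : 2 ^ c * i / 2 = 2 ^ (c - 1) * i := by rw [hc2, mul_assoc]; omega
    have e3 : 2 ^ c * i = 2 * (2 ^ (c - 1) * i) := by rw [hc2, mul_assoc]
    have e4 : 0 < 2 ^ (c - 1) * i := Nat.mul_pos (by positivity) hi1
    rw [e2, h2 (2 ^ c * i) (Nat.mul_pos (by positivity) hi1) hi3, h2 (2 ^ (c - 1) * i)
      e4 (by omega), add_zero] at e1
    exact e1.symm
  have e1 := F_half K (2 ^ w * U) (2 ^ c * o) (2 ^ a * d') hle
  have ho0 : 1 ≤ o := by omega
  have e2 : 2 ^ c * o / 2 = 2 ^ (c - 1) * o := by rw [hc2, mul_assoc]; omega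
  have e3 : 2 ^ (c - 1) * o < 2 ^ c * o := by
    rw [hc2]; exact Nat.mul_lt_mul_of_pos_right (by omega) ho0
  rw [e2, h2 (2 ^ (c - 1) * o) (Nat.mul_pos (by positivity) ho0) e3, add_zero, h1] at e1
  have e4 : (2 ^ c * o * (2 ^ a * d')) % 2 ^ K = 2 ^ w * U := by
    by_contra hcon
    unfold chi at e1
    rw [if_neg (fun h => hcon h.2)] at e1
    exact absurd e1 (by decide)
  have e5 : 2 ^ c * o * (2 ^ a * d') = 2 ^ (c + a) * (o * d') := by rw [pow_add]; ring
  have hod : (o * d') % 2 = 1 := by rw [Nat.mul_mod, ho, hd']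
  rw [e5, mod_iff K w U _ _ hw hU hUK hod] at e4
  refine ⟨c, o, hc, by omega, ho, ?_, rfl⟩
  by_contra hcon
  push Not at hcon
  obtain ⟨o', ho'⟩ : ∃ o', o' = o % 2 ^ (K - w) := ⟨_, rfl⟩
  have hpK : 2 ^ (K - w) = 2 * 2 ^ (K - w - 1) := by rw [← pow_succ']; congr 1; omega
  have ho'lt : o' < 2 ^ (K - w) := by rw [ho']; exact Nat.mod_lt _ (by positivity)
  have ho'2 : o' % 2 = 1 := by
    rw [ho', Nat.mod_mod_of_dvd _ (by rw [hpK]; exact Dvd.intro _ rfl)]; exact ho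
  have h6 := hit o' (by omega) ho'2 (Nat.mul_lt_mul_of_pos_left (by omega) (by positivity))
  have e6 : 2 ^ c * o' * (2 ^ a * d') = 2 ^ (c + a) * (o' * d') := by rw [pow_add]; ring
  have ho'd : (o' * d') % 2 = 1 := by rw [Nat.mul_mod, ho'2, hd']
  have e7 : (2 ^ c * o' * (2 ^ a * d')) % 2 ^ K = 2 ^ w * U := by
    rw [e6, mod_iff K w U _ _ hw hU hUK ho'd]
    refine ⟨e4.1, ?_⟩
    rw [← e4.2, ho', Nat.mod_mul_mod]
  unfold chi at h6
  rw [if_pos] at h6
  · exact absurd h6 (by decide)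
  · refine ⟨?_, e7⟩
    have : 0 < 2 ^ c * o' * (2 ^ a * d') :=
      Nat.mul_pos (Nat.mul_pos (by positivity) (by omega)) (Nat.mul_pos (by positivity) (by omega))
    omega

lemma lower_odd (hw : w < K) (hU : U % 2 = 1) (hUK : U < 2 ^ (K - w)) (l : ℕ)
    (hl : l % 2 = 1) : ∃ d, 1 ≤ d ∧ F K (2 ^ w * U) (l * d) = 1 ∧
    ∀ i, 1 ≤ i → i < l → F K (2 ^ w * U) (i * d) = 0 := by
  have hV : 2 ^ w * U < 2 ^ K := by
    have : 2 ^ K = 2 ^ w * 2 ^ (K - w) := by rw [← pow_add]; congr 1; omega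
    rw [this]; exact Nat.mul_lt_mul_of_pos_left hUK (by positivity)
  have hV0 : 2 ^ w * U ≠ 0 := by
    have : 0 < 2 ^ w * U := Nat.mul_pos (by positivity) (by omega)
    omega
  obtain ⟨d, hd⟩ := surj_pos K (2 ^ w * U) (by omega) hV hV0 l (fun j => if j = l then 1 else 0)
  have e1 : ∀ i, i * (2 ^ K * d) = 2 ^ K * (i * d) := fun i => by ring
  have h1 : F K (2 ^ w * U) (l * (2 ^ K * d)) = 1 := by
    rw [e1, hd l le_rfl hl]; simp
  refine ⟨2 ^ K * d, ?_, h1, ?_⟩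
  · by_contra hc
    have : 2 ^ K * d = 0 := by omega
    rw [this, mul_zero, F_zero] at h1
    exact absurd h1 (by decide)
  · intro i
    induction i using Nat.strong_induction_on with
    | _ i ih =>
      intro hi1 hil
      rcases Nat.mod_two_eq_zero_or_one i with h | h
      · rw [F_half _ _ _ _ h, ih (i / 2) (by omega) (by omega) (by omega), add_zero]
        unfold chi
        rw [if_neg]
        rintro ⟨-, hc⟩
        rw [e1, Nat.mul_mod_right] at hc
        exact hV0 hc.symm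
      · rw [e1, hd i hil.le h]
        simp only [hil.ne, if_false]

lemma lower_even (hw : w < K) (hU : U % 2 = 1) (hUK : U < 2 ^ (K - w)) (c o : ℕ)
    (hc1 : 1 ≤ c) (hcw : c ≤ w) (ho : o % 2 = 1) (hoK : o < 2 ^ (K - w)) :
    ∃ d, 1 ≤ d ∧ F K (2 ^ w * U) (2 ^ c * o * d) = 1 ∧
    ∀ i, 1 ≤ i → i < 2 ^ c * o → F K (2 ^ w * U) (i * d) = 0 := by
  have hV : 2 ^ w * U < 2 ^ K := by
    have : 2 ^ K = 2 ^ w * 2 ^ (K - w) := by rw [← pow_add]; congr 1; omega
    rw [this]; exact Nat.mul_lt_mul_of_pos_left hUK (by positivity)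
  have hV0 : 2 ^ w * U ≠ 0 := by
    have : 0 < 2 ^ w * U := Nat.mul_pos (by positivity) (by omega)
    omega
  have hpK : 2 ^ (K - w) = 2 * 2 ^ (K - w - 1) := by rw [← pow_succ']; congr 1; omega
  -- the inverse
  have hcop : Nat.Coprime o (2 ^ (K - w)) := by
    apply Nat.Coprime.pow_right
    rw [Nat.coprime_two_right]
    exact Nat.odd_iff.2 ho
  obtain ⟨x, hx1, hx2⟩ := Nat.chineseRemainder hcop 0 U
  obtain ⟨ρ', hρ'⟩ : ∃ ρ', x = o * ρ' := (Nat.modEq_zero_iff_dvd.1 hx1)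
  have hxU : (o * ρ') % 2 ^ (K - w) = U := by
    rw [← hρ']
    have : x % 2 ^ (K - w) = U % 2 ^ (K - w) := hx2
    rw [this, Nat.mod_eq_of_lt hUK]
  have hρ2 : ρ' % 2 = 1 := by
    have h1 : (o * ρ') % 2 ^ (K - w) % 2 = (o * ρ') % 2 :=
      Nat.mod_mod_of_dvd _ (by rw [hpK]; exact Dvd.intro _ rfl)
    rw [hxU, hU, Nat.mul_mod, ho, one_mul, Nat.mod_mod] at h1
    exact h1.symm
  obtain ⟨ρ, hρ⟩ : ∃ ρ, ρ = 2 ^ (w - c) * ρ' := ⟨_, rfl⟩
  obtain ⟨l, hl⟩ : ∃ l, l = 2 ^ c * o := ⟨_, rfl⟩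
  obtain ⟨M, hM⟩ : ∃ M, M = l * ρ + K := ⟨_, rfl⟩
  obtain ⟨d, hd⟩ := surj_pos K (2 ^ w * U) (by omega) hV hV0 l
    (fun j => F K (2 ^ w * U) (j * ρ))
  have hc2 : 2 ^ c = 2 * 2 ^ (c - 1) := by rw [← pow_succ']; congr 1; omega
  have hl2 : l % 2 = 0 := by rw [hl, hc2, mul_assoc]; omega
  have e1 : ∀ i, i * (ρ + 2 ^ M * (2 ^ K * d)) = 2 ^ M * (2 ^ K * (i * d)) + i * ρ :=
    fun i => by ring
  have hodd : ∀ i, i ≤ l → i % 2 = 1 → F K (2 ^ w * U) (i * (ρ + 2 ^ M * (2 ^ K * d))) = 0 := by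
    intro i hi hi2
    have h1 : i * ρ < 2 ^ M := by
      have h2 : i * ρ ≤ l * ρ := Nat.mul_le_mul_right _ hi
      have h3 : M < 2 ^ M := Nat.lt_two_pow_self
      omega
    rw [e1, (win_pos K (2 ^ w * U) hV0).block _ _ _ h1, hd i hi hi2]
    exact two_eq _
  have hmod : ∀ i, (i * (ρ + 2 ^ M * (2 ^ K * d))) % 2 ^ K = (i * ρ) % 2 ^ K := by
    intro i
    rw [e1]
    have : 2 ^ M * (2 ^ K * (i * d)) = 2 ^ K * (2 ^ M * (i * d)) := by ring
    rw [this, Nat.mul_add_mod]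
  have hlow : ∀ i, 1 ≤ i → i < l → F K (2 ^ w * U) (i * (ρ + 2 ^ M * (2 ^ K * d))) = 0 := by
    intro i
    induction i using Nat.strong_induction_on with
    | _ i ih =>
      intro hi1 hil
      rcases Nat.mod_two_eq_zero_or_one i with h | h
      · rw [F_half _ _ _ _ h, ih (i / 2) (by omega) (by omega) (by omega), add_zero]
        unfold chi
        rw [if_neg]
        rintro ⟨-, hc⟩
        rw [hmod] at hc
        obtain ⟨a, i', hi', rfl⟩ := two_adic i (by omega)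
        have e2 : 2 ^ a * i' * ρ = 2 ^ (a + (w - c)) * (i' * ρ') := by
          rw [hρ, pow_add]; ring
        have hiρ : (i' * ρ') % 2 = 1 := by rw [Nat.mul_mod, hi', hρ2]
        rw [e2, mod_iff K w U _ _ hw hU hUK hiρ] at hc
        have hac : a = c := by omega
        subst hac
        have hio : i' < o := by
          rw [hl] at hil
          exact Nat.lt_of_mul_lt_mul_left hil
        have h5 : i' * ρ' ≡ o * ρ' [MOD 2 ^ (K - w)] := by
          show (i' * ρ') % 2 ^ (K - w) = (o * ρ') % 2 ^ (K - w)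
          rw [hc.2, hxU]
        have hcop2 : Nat.gcd (2 ^ (K - w)) ρ' = 1 := by
          have : Nat.Coprime ρ' (2 ^ (K - w)) := by
            apply Nat.Coprime.pow_right
            rw [Nat.coprime_two_right]
            exact Nat.odd_iff.2 hρ2
          rw [Nat.gcd_comm]; exact this
        have h6 := Nat.ModEq.cancel_right_of_coprime hcop2 h5
        have h7 : i' % 2 ^ (K - w) = o % 2 ^ (K - w) := h6
        rw [Nat.mod_eq_of_lt (by omega), Nat.mod_eq_of_lt hoK] at h7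
        omega
      · exact hodd i hil.le h
  refine ⟨ρ + 2 ^ M * (2 ^ K * d), ?_, ?_, ?_⟩
  · have : 0 < 2 ^ (w - c) * ρ' := Nat.mul_pos (by positivity) (by omega)
    omega
  · rw [← hl, F_half _ _ _ _ hl2]
    have hl4 : 2 ≤ l := by
      have : 0 < 2 ^ (c - 1) * o := Nat.mul_pos (by positivity) (by omega)
      rw [hl, hc2, mul_assoc]; omega
    rw [hlow (l / 2) (by omega) (by omega), add_zero]
    unfold chi
    have e3 : (l * ρ) % 2 ^ K = 2 ^ w * U := by
      have e4 : l * ρ = 2 ^ w * (o * ρ') := by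
        rw [hl, hρ]
        have : 2 ^ w = 2 ^ c * 2 ^ (w - c) := by rw [← pow_add]; congr 1; omega
        rw [this]; ring
      have hoρ : (o * ρ') % 2 = 1 := by rw [Nat.mul_mod, ho, hρ2]
      rw [e4, mod_iff K w U _ _ hw hU hUK hoρ]
      exact ⟨rfl, hxU⟩
    rw [if_pos]
    refine ⟨?_, by rw [hmod, e3]⟩
    intro hc
    have := hmod l
    rw [hc, e3, Nat.zero_mod] at this
    exact hV0 this.symm
  · rw [← hl]; exact hlow

end pos

section zero

variable {K : ℕ}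

lemma upper_zero (hK : 1 ≤ K) (d l : ℕ) (hd : 1 ≤ d) (hl : 1 ≤ l) (h1 : F K 0 (l * d) = 1)
    (h2 : ∀ i, 1 ≤ i → i < l → F K 0 (i * d) = 0) :
    (l % 2 = 1 ∧ l < 2 ^ K) ∨ ∃ c, 1 ≤ c ∧ c ≤ K ∧ l = 2 ^ c := by
  have hle : l ≤ 2 ^ K := by
    by_contra hc
    push Not at hc
    have e1 := F_double K d hK hd
    have e2 : 2 ^ (K - 1) ≤ 2 ^ K := Nat.pow_le_pow_right (by norm_num) (by omega)
    rw [h2 (2 ^ K) Nat.one_le_two_pow hc, h2 (2 ^ (K - 1)) Nat.one_le_two_pow (by omega)] at e1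
    exact absurd e1 (by decide)
  rcases Nat.mod_two_eq_zero_or_one l with h | h
  · right
    obtain ⟨c, o, ho, rfl⟩ := two_adic l (by omega)
    have hc : 1 ≤ c := by
      by_contra hcon
      have : c = 0 := by omega
      subst this
      rw [pow_zero, one_mul] at h
      omega
    have hc2 : 2 ^ c = 2 * 2 ^ (c - 1) := by rw [← pow_succ']; congr 1; omega
    have ho0 : 1 ≤ o := by omega
    have e1 := F_half K 0 (2 ^ c * o) d h
    have e2 : 2 ^ c * o / 2 = 2 ^ (c - 1) * o := by rw [hc2, mul_assoc]; omega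
    have hpc : 0 < 2 ^ (c - 1) := by positivity
    have e3 : 2 ^ (c - 1) * o < 2 ^ c * o := by
      rw [hc2]; exact Nat.mul_lt_mul_of_pos_right (by omega) ho0
    rw [e2, h2 (2 ^ (c - 1) * o) (Nat.mul_pos (by positivity) ho0) e3, add_zero, h1] at e1
    have e4 : (2 ^ c * o * d) % 2 ^ K = 0 := by
      by_contra hcon
      unfold chi at e1
      rw [if_neg (fun h => hcon h.2)] at e1
      exact absurd e1 (by decide)
    have e5 : 2 ^ K ∣ 2 ^ c * d := by
      have e6 : 2 ^ K ∣ (2 ^ c * d) * o := by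
        have := Nat.dvd_of_mod_eq_zero e4
        have e7 : 2 ^ c * o * d = (2 ^ c * d) * o := by ring
        rw [e7] at this; exact this
      have hcop : Nat.Coprime (2 ^ K) o := by
        apply Nat.Coprime.pow_left
        rw [Nat.coprime_two_left]
        exact Nat.odd_iff.2 ho
      exact hcop.dvd_of_dvd_mul_right e6
    have ho1 : o = 1 := by
      by_contra hcon
      have ho2 : 2 ≤ o := by omega
      have hlt : 2 ^ c < 2 ^ c * o := by
        have : 2 ^ c * 2 ≤ 2 ^ c * o := Nat.mul_le_mul_left _ ho2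
        have : 0 < 2 ^ c := by positivity
        omega
      have e6 := F_half K 0 (2 ^ c) d (by rw [hc2]; omega)
      have e7 : 2 ^ c / 2 = 2 ^ (c - 1) := by omega
      rw [e7, h2 (2 ^ c) Nat.one_le_two_pow hlt, h2 (2 ^ (c - 1)) Nat.one_le_two_pow (by omega),
        add_zero] at e6
      unfold chi at e6
      rw [if_pos] at e6
      · exact absurd e6 (by decide)
      · refine ⟨?_, Nat.mod_eq_zero_of_dvd e5⟩
        have : 0 < 2 ^ c * d := Nat.mul_pos (by positivity) hd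
        omega
    subst ho1
    rw [mul_one] at hle ⊢
    exact ⟨c, hc, (Nat.pow_le_pow_iff_right (by norm_num)).1 hle, rfl⟩
  · left
    refine ⟨h, lt_of_le_of_ne hle ?_⟩
    rintro rfl
    have : 2 ^ K = 2 * 2 ^ (K - 1) := by rw [← pow_succ']; congr 1; omega
    omega

lemma lower_odd_zero (hK : 1 ≤ K) (l : ℕ) (hl : l % 2 = 1) (hlK : l < 2 ^ K) :
    ∃ d, 1 ≤ d ∧ F K 0 (l * d) = 1 ∧ ∀ i, 1 ≤ i → i < l → F K 0 (i * d) = 0 := by
  obtain ⟨d, hd2, hd⟩ := surj_zero K hK l (fun j => if j = l then 1 else 0)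
  refine ⟨d, by omega, ?_, ?_⟩
  · rw [hd l le_rfl hl]; simp
  · intro i
    induction i using Nat.strong_induction_on with
    | _ i ih =>
      intro hi1 hil
      rcases Nat.mod_two_eq_zero_or_one i with h | h
      · rw [F_half _ _ _ _ h, ih (i / 2) (by omega) (by omega) (by omega), add_zero]
        unfold chi
        rw [if_neg]
        rintro ⟨-, hc⟩
        have hcop : Nat.Coprime (2 ^ K) d := by
          apply Nat.Coprime.pow_left
          rw [Nat.coprime_two_left]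
          exact Nat.odd_iff.2 hd2
        have := Nat.le_of_dvd hi1 (hcop.dvd_of_dvd_mul_right (Nat.dvd_of_mod_eq_zero hc))
        omega
      · rw [hd i hil.le h]
        simp only [hil.ne, if_false]

lemma lower_pow_zero (hK : 1 ≤ K) (c : ℕ) (hcK : c ≤ K) :
    ∃ d, 1 ≤ d ∧ F K 0 (2 ^ c * d) = 1 ∧ ∀ i, 1 ≤ i → i < 2 ^ c → F K 0 (i * d) = 0 := by
  obtain ⟨d, hd2, hd⟩ := surj_zero K hK (2 ^ c) (fun _ => 0)
  have key : ∀ a j, j % 2 = 1 → j ≤ 2 ^ c → 2 ^ a * j < 2 ^ K → F K 0 (2 ^ a * j * d) = 0 := by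
    intro a
    induction a with
    | zero =>
      intro j hj hjc _
      rw [pow_zero, one_mul]
      exact hd j hjc hj
    | succ a ih =>
      intro j hj hjc hlt
      have e0 : 2 ^ (a + 1) * j = 2 * (2 ^ a * j) := by rw [pow_succ]; ring
      have e1 := F_half K 0 (2 ^ (a + 1) * j) d (by rw [e0]; omega)
      have e2 : 2 ^ (a + 1) * j / 2 = 2 ^ a * j := by rw [e0]; omega
      rw [e1, e2, ih j hj hjc (by omega), add_zero]
      unfold chi
      rw [if_neg]
      rintro ⟨-, hc⟩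
      have hcop : Nat.Coprime (2 ^ K) d := by
        apply Nat.Coprime.pow_left
        rw [Nat.coprime_two_left]
        exact Nat.odd_iff.2 hd2
      have hpos : 0 < 2 ^ (a + 1) * j := Nat.mul_pos (by positivity) (by omega)
      have := Nat.le_of_dvd hpos (hcop.dvd_of_dvd_mul_right (Nat.dvd_of_mod_eq_zero hc))
      omega
  refine ⟨2 ^ (K - c) * d, Nat.mul_pos (by positivity) (by omega), ?_, ?_⟩
  · have e1 : 2 ^ c * (2 ^ (K - c) * d) = 2 ^ K * d := by
      rw [← mul_assoc, ← pow_add]; congr 2; omega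
    have e2 := F_double K d hK (by omega)
    have e3 := key (K - 1) 1 rfl Nat.one_le_two_pow (by
      rw [mul_one]; exact Nat.pow_lt_pow_right (by norm_num) (by omega))
    rw [mul_one] at e3
    rw [e3, add_zero] at e2
    rw [e1, e2]
  · intro i hi1 hic
    obtain ⟨a, j, hj, rfl⟩ := two_adic i (by omega)
    have hj1 : 1 ≤ j := by omega
    have e1 : 2 ^ a * j * (2 ^ (K - c) * d) = 2 ^ (a + (K - c)) * j * d := by
      rw [pow_add]; ring
    have hjc : j ≤ 2 ^ c := by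
      have : 1 * j ≤ 2 ^ a * j := Nat.mul_le_mul_right _ Nat.one_le_two_pow
      omega
    rw [e1]
    apply key _ _ hj hjc
    have e2 : 2 ^ (a + (K - c)) * j = (2 ^ a * j) * 2 ^ (K - c) := by rw [pow_add]; ring
    have e3 : 2 ^ K = 2 ^ c * 2 ^ (K - c) := by rw [← pow_add]; congr 1; omega
    rw [e2, e3]
    exact Nat.mul_lt_mul_of_pos_right hic (by positivity)

end zero

end Q280.Pat
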