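import Pool.Agent.Q280.Pat.Core

set_option autoImplicit false

/-!
# The local obstruction
-/

open Finset

namespace Q280.Pat

lemma pred_div (x i : ℕ) (h : (x + 1) % 2 ^ (i + 1) = 2 ^ i) (q : ℕ) (hq : i + 1 ≤ q) :
    (x + 1) / 2 ^ q = x / 2 ^ q := by
  have h1 : (x + 1) / 2 ^ (i + 1) = x / 2 ^ (i + 1) := by
    have h2 := Nat.div_add_mod (x + 1) (2 ^ (i + 1))
    rw [h] at h2
    have hp : 0 < 2 ^ i := by positivity
    symm
    apply (Nat.div_eq_iff (by positivity)).2
    have h3 : 2 ^ (i + 1) = 2 * 2 ^ i := by rw [pow_succ]; ring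
    constructor
    · rw [mul_comm] at h2
      omega
    · rw [mul_comm] at h2
      rw [h3] at h2 ⊢
      omega
  have hq' : 2 ^ q = 2 ^ (i + 1) * 2 ^ (q - (i + 1)) := by
    rw [← pow_add]; congr 1; omega
  rw [hq', ← Nat.div_div_eq_div_mul, ← Nat.div_div_eq_div_mul, h1]

/-- windows of length one -/
lemma F_one_pred (V x i : ℕ) (hV : V < 2) (h : (x + 1) % 2 ^ (i + 1) = 2 ^ i)
    (hx : 2 ^ (i + 1) ≤ x) : F 1 V (x + 1) + F 1 V x = ((i + 1 : ℕ) : ZMod 2) := by
  induction i generalizing x with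
  | zero =>
    rw [F_step 1 V (x + 1), F_step 1 V x]
    have e1 : (x + 1) / 2 = x / 2 := by simp at h; omega
    rw [e1]
    have h2 : (x + 1) % 2 = 1 := by simpa using h
    have h3 : x % 2 = 0 := by omega
    have hx' : x ≠ 0 := by simp at hx; omega
    have e2 : chi 1 V (x + 1) + chi 1 V x = 1 := by
      unfold chi
      rw [pow_one, h2, h3]
      have : V = 0 ∨ V = 1 := by omega
      rcases this with rfl | rfl <;> simp [hx']
    have : ∀ a b c : ZMod 2, a + b = 1 → a + c + (b + c) = 1 := by decide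
    simpa using this _ _ _ e2
  | succ i ih =>
    rw [F_step 1 V (x + 1), F_step 1 V x]
    have hp : 2 ^ (i + 1 + 1) = 2 * 2 ^ (i + 1) := by rw [pow_succ]; ring
    have hp2 : 2 ^ (i + 1) = 2 * 2 ^ i := by rw [pow_succ]; ring
    have h2 : (x + 1) % 2 = 0 := by
      have : (x + 1) % 2 ^ (i + 1 + 1) % 2 = (x + 1) % 2 :=
        Nat.mod_mod_of_dvd _ ⟨2 ^ (i + 1), hp⟩
      rw [← this, h, hp2]; simp
    have h3 : x % 2 = 1 := by omega
    obtain ⟨y, hy⟩ : ∃ y, x = 2 * y + 1 := ⟨x / 2, by omega⟩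
    have e1 : (x + 1) / 2 = y + 1 := by omega
    have e2 : x / 2 = y := by omega
    rw [e1, e2]
    have h4 : (y + 1) % 2 ^ (i + 1) = 2 ^ i := by
      have h5 : x + 1 = 2 * (y + 1) := by omega
      rw [h5, hp, Nat.mul_mod_mul_left] at h
      omega
    have ih' := ih y h4 (by omega)
    have e3 : chi 1 V (x + 1) + chi 1 V x = 1 := by
      unfold chi
      rw [pow_one, h2, h3]
      have : V = 0 ∨ V = 1 := by omega
      have hx' : x ≠ 0 := by omega
      rcases this with rfl | rfl <;> simp [hx']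
    have : ∀ a b c d k : ZMod 2, a + b = 1 → c + d = k → a + c + (b + d) = k + 1 := by decide
    have h6 := this _ _ _ _ _ e3 ih'
    rw [h6]
    push_cast
    ring

/-- the obstruction -/
lemma violation (K V a : ℕ) (hK : 1 ≤ K) (hV : V < 2 ^ K) :
    ∃ t m0, 1 ≤ t ∧ m0 < 2 ^ t ∧ 2 ^ a ∣ m0 ∧ a ≤ t ∧ ∀ c', c' % 2 = 1 → ∀ m, 2 ^ t ≤ m →
      (m + 1) % 2 ^ t = m0 →
      F K V (m + 1) + F K V m + F K V (m + 1 + 2 ^ (K - 1 + a) * c') +
        F K V (m + 2 ^ (K - 1 + a) * c') = 1 := by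
  rcases Nat.lt_or_ge 1 K with hK2 | hK2
  · -- `K ≥ 2`
    obtain ⟨s, hs1, hs2, hs3⟩ : ∃ s, s % 2 = 1 ∧ s < 2 ^ K ∧ (s = V ∨ s = V + 1) := by
      have h2 : 2 ^ K = 2 * 2 ^ (K - 1) := by
        rw [← pow_succ']; congr 1; omega
      rcases Nat.mod_two_eq_zero_or_one V with h | h
      · exact ⟨V + 1, by omega, by omega, Or.inr rfl⟩
      · exact ⟨V, h, hV, Or.inl rfl⟩
    have hpK : 2 ^ K = 2 * 2 ^ (K - 1) := by
      rw [← pow_succ']; congr 1; omega
    have hpK1 : 2 ^ (K - 1) = 2 * 2 ^ (K - 2) := by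
      rw [← pow_succ']; congr 1; omega
    refine ⟨K + a, s * 2 ^ a, by omega, ?_, ⟨s, by ring⟩, by omega, ?_⟩
    · rw [pow_add]; exact Nat.mul_lt_mul_of_pos_right hs2 (by positivity)
    intro c' hc' m hm hmod
    -- write m + 1 = 2^a * s'
    obtain ⟨g, hg⟩ : ∃ g, m + 1 = 2 ^ a * (s + 2 ^ K * g) := by
      refine ⟨(m + 1) / 2 ^ (K + a), ?_⟩
      have := Nat.div_add_mod (m + 1) (2 ^ (K + a))
      rw [hmod] at this
      generalize (m + 1) / 2 ^ (K + a) = g at this ⊢
      rw [← this, pow_add]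
      ring
    have hmod1 : (m + 1) % 2 ^ (a + 1) = 2 ^ a := by
      rw [hg, pow_succ, Nat.mul_mod_mul_left]
      have : (s + 2 ^ K * g) % 2 = 1 := by
        rw [hpK, mul_assoc]; omega
      rw [this, mul_one]
    have hmod2 : (m + 2 ^ (K - 1 + a) * c' + 1) % 2 ^ (a + 1) = 2 ^ a := by
      have : m + 2 ^ (K - 1 + a) * c' + 1 = m + 1 + 2 ^ (K - 1 + a) * c' := by ring
      rw [this, add_mul_mod_pow _ _ _ _ (by omega), hmod1]
    have r1 : m + 1 + 2 ^ (K - 1 + a) * c' = m + 2 ^ (K - 1 + a) * c' + 1 := by ring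
    rw [r1]
    rw [F_split K V (m + 1) (a + 1), F_split K V m (a + 1),
      F_split K V (m + 2 ^ (K - 1 + a) * c' + 1) (a + 1),
      F_split K V (m + 2 ^ (K - 1 + a) * c') (a + 1),
      pred_div m a hmod1 _ le_rfl, pred_div (m + 2 ^ (K - 1 + a) * c') a hmod2 _ le_rfl]
    rw [sum_range_succ, sum_range_succ, sum_range_succ, sum_range_succ]
    have hbig : 2 ^ (K + a) ≤ m := hm
    have nz : ∀ z p, m ≤ z → p ≤ a → z / 2 ^ p ≠ 0 := by
      intro z p hz hp hc
      rw [Nat.div_eq_zero_iff] at hc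
      rcases hc with hc | hc
      · exact absurd hc (by positivity)
      · have : 2 ^ p ≤ 2 ^ (K + a) := Nat.pow_le_pow_right (by norm_num) (by omega)
        omega
    have low1 : ∑ p ∈ range a, chi K V ((m + 2 ^ (K - 1 + a) * c' + 1) / 2 ^ p) =
        ∑ p ∈ range a, chi K V ((m + 1) / 2 ^ p) := by
      apply sum_congr rfl
      intro p hp
      rw [mem_range] at hp
      apply chi_congr K V _ _ (nz _ _ (by omega) (by omega)) (nz _ _ (by omega) (by omega))
      have : m + 2 ^ (K - 1 + a) * c' + 1 = 2 ^ (K - 1 + a) * c' + (m + 1) := by ring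
      rw [this, div_low _ _ _ _ (by omega), mul_add_mod_pow _ _ _ _ (by omega)]
    have low2 : ∑ p ∈ range a, chi K V ((m + 2 ^ (K - 1 + a) * c') / 2 ^ p) =
        ∑ p ∈ range a, chi K V (m / 2 ^ p) := by
      apply sum_congr rfl
      intro p hp
      rw [mem_range] at hp
      apply chi_congr K V _ _ (nz _ _ (by omega) (by omega)) (nz _ _ (by omega) (by omega))
      have : m + 2 ^ (K - 1 + a) * c' = 2 ^ (K - 1 + a) * c' + m := by ring
      rw [this, div_low _ _ _ _ (by omega), mul_add_mod_pow _ _ _ _ (by omega)]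
    rw [low1, low2]
    -- the four windows at position a
    have w1 : (m + 1) / 2 ^ a = s + 2 ^ K * g := by
      rw [hg]; exact Nat.mul_div_cancel_left _ (by positivity)
    have w2 : m / 2 ^ a = s - 1 + 2 ^ K * g := by
      apply (Nat.div_eq_iff (by positivity)).2
      have hsg : s + 2 ^ K * g = (s - 1 + 2 ^ K * g) + 1 := by omega
      rw [hsg] at hg
      have h5 : 2 ^ a * (s - 1 + 2 ^ K * g + 1) = (s - 1 + 2 ^ K * g) * 2 ^ a + 2 ^ a := by ring
      rw [h5] at hg
      have : 0 < 2 ^ a := by positivity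
      omega
    have w3 : (m + 2 ^ (K - 1 + a) * c' + 1) / 2 ^ a = 2 ^ (K - 1) * c' + (s + 2 ^ K * g) := by
      have : m + 2 ^ (K - 1 + a) * c' + 1 = 2 ^ (K - 1 + a) * c' + (m + 1) := by ring
      rw [this, div_low _ _ _ _ (by omega), w1]
      congr 3
      omega
    have w4 : (m + 2 ^ (K - 1 + a) * c') / 2 ^ a = 2 ^ (K - 1) * c' + (s - 1 + 2 ^ K * g) := by
      have : m + 2 ^ (K - 1 + a) * c' = 2 ^ (K - 1 + a) * c' + m := by ring
      rw [this, div_low _ _ _ _ (by omega), w2]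
      congr 3
      omega
    have n1 := nz (m + 1) a (by omega) le_rfl
    have n2 := nz m a le_rfl le_rfl
    have n3 := nz (m + 2 ^ (K - 1 + a) * c' + 1) a (by omega) le_rfl
    have n4 := nz (m + 2 ^ (K - 1 + a) * c') a (by omega) le_rfl
    -- residues
    have hc2 : 2 ^ (K - 1) * c' % 2 ^ K = 2 ^ (K - 1) := by
      rw [hpK, mul_comm 2 (2 ^ (K - 1)), Nat.mul_mod_mul_left, hc', mul_one]
    have hP : 0 < 2 ^ (K - 2) := by positivity
    have q1 : (m + 1) / 2 ^ a % 2 ^ K = s := by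
      rw [w1, Nat.add_mul_mod_self_left, Nat.mod_eq_of_lt hs2]
    have q2 : m / 2 ^ a % 2 ^ K = s - 1 := by
      rw [w2, Nat.add_mul_mod_self_left, Nat.mod_eq_of_lt (by omega)]
    have q3 : (m + 2 ^ (K - 1 + a) * c' + 1) / 2 ^ a % 2 ^ K = (2 ^ (K - 1) + s) % 2 ^ K := by
      rw [w3, ← add_assoc, Nat.add_mul_mod_self_left, Nat.add_mod, hc2, Nat.mod_eq_of_lt hs2]
    have q4 : (m + 2 ^ (K - 1 + a) * c') / 2 ^ a % 2 ^ K = (2 ^ (K - 1) + (s - 1)) % 2 ^ K := by
      rw [w4, ← add_assoc, Nat.add_mul_mod_self_left, Nat.add_mod, hc2,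
        Nat.mod_eq_of_lt (show s - 1 < 2 ^ K by omega)]
    have key : chi K V ((m + 1) / 2 ^ a) + chi K V (m / 2 ^ a) +
        chi K V ((m + 2 ^ (K - 1 + a) * c' + 1) / 2 ^ a) +
        chi K V ((m + 2 ^ (K - 1 + a) * c') / 2 ^ a) = 1 := by
      unfold chi
      rw [q1, q2, q3, q4]
      have z3 : (2 ^ (K - 1) + s) % 2 ^ K = if s < 2 ^ (K - 1) then 2 ^ (K - 1) + s
          else s - 2 ^ (K - 1) := by
        split_ifs with hlt
        · exact Nat.mod_eq_of_lt (by omega)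
        · rw [Nat.mod_eq_sub_mod (by omega), Nat.mod_eq_of_lt (by omega)]; omega
      have z4 : (2 ^ (K - 1) + (s - 1)) % 2 ^ K = if s < 2 ^ (K - 1) then 2 ^ (K - 1) + (s - 1)
          else (s - 1) - 2 ^ (K - 1) := by
        have hne : s ≠ 2 ^ (K - 1) := by omega
        split_ifs with hlt
        · exact Nat.mod_eq_of_lt (by omega)
        · rw [Nat.mod_eq_sub_mod (by omega), Nat.mod_eq_of_lt (by omega)]; omega
      rw [z3, z4]
      rcases hs3 with rfl | rfl
      · rw [if_pos ⟨n1, rfl⟩, if_neg (fun hc => by have := hc.2; omega),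
          if_neg (fun hc => by have := hc.2; split_ifs at this <;> omega),
          if_neg (fun hc => by have := hc.2; split_ifs at this <;> omega)]
        rfl
      · rw [if_neg (fun hc => by have := hc.2; omega), if_pos ⟨n2, by omega⟩,
          if_neg (fun hc => by have := hc.2; split_ifs at this <;> omega),
          if_neg (fun hc => by have := hc.2; split_ifs at this <;> omega)]
        rfl
    generalize (∑ p ∈ range a, chi K V ((m + 1) / 2 ^ p)) = S1
    generalize (∑ p ∈ range a, chi K V (m / 2 ^ p)) = S2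
    generalize F K V (m / 2 ^ (a + 1)) = S3
    generalize F K V ((m + 2 ^ (K - 1 + a) * c') / 2 ^ (a + 1)) = S4
    have t1 := two_eq S1
    have t2 := two_eq S2
    have t3 := two_eq S3
    have t4 := two_eq S4
    linear_combination key + t1 + t2 + t3 + t4
  · -- `K = 1`
    have hK1 : K = 1 := by omega
    subst hK1
    refine ⟨a + 2, 2 ^ (a + 1), by omega, Nat.pow_lt_pow_right (by norm_num) (by omega),
      ⟨2, by rw [pow_succ]⟩, by omega, ?_⟩
    intro c' hc' m hm hmod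
    have hV' : V < 2 := by simpa using hV
    have e1 := F_one_pred V m (a + 1) hV' hmod hm
    have r1 : m + 1 + 2 ^ (1 - 1 + a) * c' = m + 2 ^ a * c' + 1 := by
      have : 1 - 1 + a = a := by omega
      rw [this]; ring
    have r2 : 1 - 1 + a = a := by omega
    rw [r1, r2]
    have hmod2 : (m + 2 ^ a * c' + 1) % 2 ^ (a + 1) = 2 ^ a := by
      have h1 : (m + 1) % 2 ^ (a + 1) = 0 := by
        have : (m + 1) % 2 ^ (a + 2) % 2 ^ (a + 1) = (m + 1) % 2 ^ (a + 1) :=
          Nat.mod_mod_of_dvd _ (pow_dvd_pow 2 (by omega))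
        rw [← this, hmod]; simp
      have h2 : m + 2 ^ a * c' + 1 = (m + 1) + 2 ^ a * c' := by ring
      rw [h2, Nat.add_mod, h1, zero_add, Nat.mod_mod, pow_succ, Nat.mul_mod_mul_left, hc', mul_one]
    have hm2 : 2 ^ (a + 1) ≤ m + 2 ^ a * c' := by
      have : 2 ^ (a + 1) ≤ 2 ^ (a + 2) := Nat.pow_le_pow_right (by norm_num) (by omega)
      omega
    have e2 := F_one_pred V (m + 2 ^ a * c') a hV' hmod2 hm2
    have e3 : F 1 V (m + 1) + F 1 V m + F 1 V (m + 2 ^ a * c' + 1) + F 1 V (m + 2 ^ a * c') =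
        ((a + 1 + 1 : ℕ) : ZMod 2) + ((a + 1 : ℕ) : ZMod 2) := by
      rw [← e1, ← e2]; ring
    rw [e3]
    push_cast
    have : ∀ x : ZMod 2, x + 1 + 1 + (x + 1) = 1 := by decide
    exact this _

end Q280.Pat
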